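import Mathlib

set_option autoImplicit false

namespace Pool.Agent.MP_0f290c_co

open Cardinal
open scoped commutatorElement

variable {Λ : Type} [LinearOrder Λ] {F : Type} [Field F]

/-- The bilinear cocycle attached to the order. -/
noncomputable def bf (Λ : Type) [LinearOrder Λ] (F : Type) [Field F] :
    (Λ →₀ F) →ₗ[F] (Λ →₀ F) →ₗ[F] F :=
  Finsupp.linearCombination F fun x =>
    Finsupp.linearCombination F fun y => if x < y then (1 : F) else 0

/-- Sum of the coordinates. -/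
noncomputable def sm (Λ : Type) (F : Type) [Field F] : (Λ →₀ F) →ₗ[F] F :=
  Finsupp.linearCombination F fun _ => (1 : F)

theorem bf_apply (v w : Λ →₀ F) :
    bf Λ F v w = ∑ x ∈ v.support, ∑ y ∈ w.support, if x < y then v x * w y else 0 := by
  simp only [bf, Finsupp.linearCombination_apply, Finsupp.sum, LinearMap.coe_sum, Finset.sum_apply,
    LinearMap.smul_apply, smul_eq_mul, Finset.mul_sum, mul_ite, mul_one, mul_zero]

theorem sm_apply {Λ : Type} (v : Λ →₀ F) : sm Λ F v = ∑ x ∈ v.support, v x := by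
  simp [sm, Finsupp.linearCombination_apply, Finsupp.sum]

theorem bf_lt (v w : Λ →₀ F) (h : ∀ x ∈ v.support, ∀ y ∈ w.support, x < y) :
    bf Λ F v w = sm Λ F v * sm Λ F w ∧ bf Λ F w v = 0 := by
  constructor
  · rw [bf_apply, sm_apply, sm_apply, Finset.sum_mul_sum]
    exact Finset.sum_congr rfl fun x hx => Finset.sum_congr rfl fun y hy => if_pos (h x hx y hy)
  · rw [bf_apply]
    exact Finset.sum_eq_zero fun y hy => Finset.sum_eq_zero fun x hx =>
      if_neg (not_lt_of_gt (h x hx y hy))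

/-- The extraspecial group. -/
@[ext] structure EG (Λ : Type) [LinearOrder Λ] (F : Type) [Field F] where
  v : Λ →₀ F
  a : F

noncomputable instance : Mul (EG Λ F) := ⟨fun g h => ⟨g.v + h.v, g.a + h.a + bf Λ F g.v h.v⟩⟩
noncomputable instance : One (EG Λ F) := ⟨⟨0, 0⟩⟩
noncomputable instance : Inv (EG Λ F) := ⟨fun g => ⟨-g.v, -g.a + bf Λ F g.v g.v⟩⟩

@[simp] theorem EG.mul_v (g h : EG Λ F) : (g * h).v = g.v + h.v := rfl
@[simp] theorem EG.mul_a (g h : EG Λ F) : (g * h).a = g.a + h.a + bf Λ F g.v h.v := rfl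
@[simp] theorem EG.one_v : (1 : EG Λ F).v = 0 := rfl
@[simp] theorem EG.one_a : (1 : EG Λ F).a = 0 := rfl
@[simp] theorem EG.inv_v (g : EG Λ F) : (g⁻¹).v = -g.v := rfl
@[simp] theorem EG.inv_a (g : EG Λ F) : (g⁻¹).a = -g.a + bf Λ F g.v g.v := rfl

noncomputable instance : Group (EG Λ F) :=
  Group.ofLeftAxioms
    (fun a b c => by
      ext1
      · simp [add_assoc]
      · simp only [EG.mul_a, EG.mul_v, map_add, LinearMap.add_apply]; ring)
    (fun a => by ext1 <;> simp)
    (fun a => by ext1 <;> simp)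

theorem EG.comm_eq (g h : EG Λ F) :
    ⁅g, h⁆ = ⟨0, bf Λ F g.v h.v - bf Λ F h.v g.v⟩ := by
  rw [commutatorElement_def]
  ext1
  · simp
  · simp only [EG.mul_a, EG.mul_v, EG.inv_v, EG.inv_a, map_add, map_neg, LinearMap.add_apply,
      LinearMap.neg_apply]
    ring

theorem EG.central (a : F) (g : EG Λ F) : g * ⟨0, a⟩ = ⟨0, a⟩ * g := by
  ext1
  · simp
  · simp [add_comm]

theorem EG.pow_v (g : EG Λ F) (n : ℕ) : (g ^ n).v = n • g.v := by
  induction n with
  | zero => simp
  | succ n ih => rw [pow_succ, EG.mul_v, ih, succ_nsmul]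

theorem EG.pow_central (a : F) (n : ℕ) : (⟨0, a⟩ : EG Λ F) ^ n = ⟨0, n * a⟩ := by
  induction n with
  | zero => ext1 <;> simp
  | succ n ih =>
    rw [pow_succ, ih]
    ext1
    · simp
    · simp [add_mul]

theorem EG.mem_center [NoMaxOrder Λ] (g : EG Λ F) : g ∈ Subgroup.center (EG Λ F) ↔ g.v = 0 := by
  classical
  rw [Subgroup.mem_center_iff]
  constructor
  · intro h
    have h1 : ∀ w : Λ →₀ F, bf Λ F w g.v = bf Λ F g.v w := by
      intro w
      have := congrArg EG.a (h ⟨w, 0⟩)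
      simpa using this
    by_contra hne
    have hs : g.v.support.Nonempty := Finsupp.support_nonempty_iff.2 hne
    set x := g.v.support.max' hs with hx
    obtain ⟨y, hy⟩ := exists_gt x
    have e1 := bf_lt g.v (Finsupp.single y (1 : F)) (by
      intro a ha b hb
      rw [Finsupp.support_single _ one_ne_zero, Finset.mem_singleton] at hb
      rw [hb]; exact (Finset.le_max' _ _ ha).trans_lt hy)
    have e2 := bf_lt (g.v.erase x) (Finsupp.single x (1 : F)) (by
      intro a ha b hb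
      rw [Finsupp.support_single _ one_ne_zero, Finset.mem_singleton] at hb
      rw [Finsupp.support_erase, Finset.mem_erase] at ha
      rw [hb]; exact lt_of_le_of_ne (Finset.le_max' _ _ ha.2) ha.1)
    have s1 : ∀ t : Λ, ∀ c : F, sm Λ F (Finsupp.single t c) = c := by intro t c; simp [sm]
    have e3 : g.v = g.v x • Finsupp.single x (1 : F) + g.v.erase x := by
      simp [Finsupp.single_add_erase]
    have e4 : sm Λ F g.v = 0 := by
      have := h1 (Finsupp.single y 1)
      rw [e1.1, e1.2, s1, mul_one] at this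
      exact this.symm
    have e5 : sm Λ F (g.v.erase x) = 0 := by
      have := h1 (Finsupp.single x 1)
      rw [e3] at this
      simp only [map_add, map_smul, LinearMap.add_apply, LinearMap.smul_apply] at this
      rw [e2.1, e2.2, s1, mul_one] at this
      simpa using this.symm
    rw [e3, map_add, e5, map_smul, s1] at e4
    have : g.v x ≠ 0 := Finsupp.mem_support_iff.1 (Finset.max'_mem _ hs)
    exact this (by simpa using e4)
  · intro h k
    have : g = ⟨0, g.a⟩ := by ext1 <;> simp [h]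
    rw [this]; exact EG.central _ _

theorem EG.commutator_eq [NoMaxOrder Λ] [Nonempty Λ] :
    commutator (EG Λ F) = Subgroup.center (EG Λ F) := by
  apply le_antisymm
  · rw [commutator_def, Subgroup.commutator_le]
    intro g _ h _
    rw [EG.mem_center, EG.comm_eq]
  · intro g hg
    rw [EG.mem_center] at hg
    obtain ⟨x⟩ := ‹Nonempty Λ›
    obtain ⟨y, hy⟩ := exists_gt x
    have : g = ⁅(⟨Finsupp.single x g.a, 0⟩ : EG Λ F), (⟨Finsupp.single y 1, 0⟩ : EG Λ F)⁆ := by
      rw [EG.comm_eq]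
      ext1
      · exact hg
      · simp [bf, hy, not_lt_of_gt hy]
    rw [this, commutator_def]
    exact Subgroup.commutator_mem_commutator (Subgroup.mem_top _) (Subgroup.mem_top _)

theorem bounded_of_small {lam : Cardinal.{0}} (hr : lam.IsRegular) (hΛ : #Λ = lam)
    (hI : ∀ x : Λ, #(Set.Iio x) < lam) (T : Set Λ) (hT : #T < lam) : ∃ y, ∀ t ∈ T, t < y := by
  by_contra hc
  push Not at hc
  have h1 : (⋃ t : T, insert (t : Λ) (Set.Iio (t : Λ))) = Set.univ := by
    apply Set.eq_univ_of_forall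
    intro y
    obtain ⟨t, ht, hy⟩ := hc y
    exact Set.mem_iUnion.2 ⟨⟨t, ht⟩, hy.eq_or_lt⟩
  have h2 : #(⋃ t : T, insert (t : Λ) (Set.Iio (t : Λ))) < lam := by
    rw [card_iUnion_lt_iff_forall_of_isRegular hr hT]
    intro t
    exact mk_insert_le.trans_lt
      (add_lt_of_lt hr.aleph0_le (hI _) (one_lt_aleph0.trans_le hr.aleph0_le))
  rw [h1, mk_univ, hΛ] at h2
  exact lt_irrefl _ h2

theorem key_cut [Countable F] {lam : Cardinal.{0}} (hr : lam.IsRegular) (hu : ℵ₀ < lam)
    (hΛ : #Λ = lam) (hI : ∀ x : Λ, #(Set.Iio x) < lam) (ι : Type) (hι : #ι < lam)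
    (U : ι → Set (Λ →₀ F)) (hU : ∀ i, ∀ u ∈ U i, ∀ u' ∈ U i, bf Λ F u u' = bf Λ F u' u)
    (a : ι → (Λ →₀ F)) :
    ∃ D : Set Λ, (∃ y, y ∉ D) ∧ (∀ i, ↑(a i).support ⊆ D) ∧
      ∀ i, ∀ u ∈ U i, ∀ r w : Λ →₀ F, u = r + w → ↑r.support ⊆ D → (∀ x ∈ w.support, x ∉ D) →
        sm Λ F w = 0 := by
  classical
  have h0 := hr.aleph0_le
  let Q : ι → (Λ →₀ F) → F → (Λ →₀ F) → Prop := fun i r c w =>
    r + w ∈ U i ∧ sm Λ F w = c ∧ ∀ x ∈ r.support, ∀ y ∈ w.support, x < y
  let W : ι → (Λ →₀ F) → F → (Λ →₀ F) := fun i r c =>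
    if h : ∃ w, Q i r c w then h.choose else 0
  have hF : #F < lam := (mk_le_aleph0 (α := F)).trans_lt hu
  have hfin : ∀ s : Finset Λ, #(s : Set Λ) < lam := fun s =>
    (lt_aleph0_of_finite _).trans hu
  have step : ∀ x : Λ, ∃ y, x < y ∧ (∀ i, ∀ t ∈ (a i).support, t < y) ∧
      ∀ i r c, (↑(Finsupp.support r) : Set Λ) ⊆ Set.Iio x → ∀ t ∈ (W i r c).support, t < y := by
    intro x
    have hsup : #(Finsupp.supported F F (Set.Iio x)) < lam := by
      rw [(Finsupp.supportedEquivFinsupp (M := F) (R := F) (Set.Iio x)).toEquiv.cardinal_eq]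
      cases finite_or_infinite (Set.Iio x) with
      | inl h => exact (mk_le_aleph0 (α := Set.Iio x →₀ F)).trans_lt hu
      | inr h => rw [mk_finsupp_of_infinite]; exact max_lt (hI x) hF
    obtain ⟨y, hy⟩ := bounded_of_small hr hΛ hI
      ({x} ∪ (⋃ i, ↑(a i).support) ∪
        ⋃ q : ι × Finsupp.supported F F (Set.Iio x) × F, ↑(W q.1 q.2.1 q.2.2).support) (by
      refine (mk_union_le _ _).trans_lt (add_lt_of_lt h0 ((mk_union_le _ _).trans_lt
        (add_lt_of_lt h0 ?_ ?_)) ?_)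
      · rw [mk_singleton]; exact one_lt_aleph0.trans hu
      · rw [card_iUnion_lt_iff_forall_of_isRegular hr hι]; intro i; exact hfin _
      · rw [card_iUnion_lt_iff_forall_of_isRegular hr]
        · intro i; exact hfin _
        · simp only [mk_prod, lift_id]
          exact mul_lt_of_lt h0 hι (mul_lt_of_lt h0 hsup hF))
    refine ⟨y, hy x (Or.inl (Or.inl rfl)), fun i t ht => hy t (Or.inl (Or.inr
      (Set.mem_iUnion.2 ⟨i, ht⟩))), fun i r c hrs t ht => hy t (Or.inr
      (Set.mem_iUnion.2 ⟨(i, ⟨r, hrs⟩, c), ht⟩))⟩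
  choose β hβ1 hβ2 hβ3 using step
  obtain ⟨x0⟩ : Nonempty Λ := by
    rw [← mk_ne_zero_iff, hΛ]; exact (aleph0_pos.trans hu).ne'
  let x : ℕ → Λ := fun n => β^[n] x0
  have xs : ∀ n, x (n + 1) = β (x n) := fun n => Function.iterate_succ_apply' β n x0
  have xm : StrictMono x := strictMono_nat_of_lt_succ fun n => by rw [xs]; exact hβ1 _
  refine ⟨{t | ∃ n, t < x n}, ?_, ?_, ?_⟩
  · obtain ⟨y, hy⟩ := bounded_of_small hr hΛ hI (Set.range x)
      ((mk_range_le.trans (mk_nat.le)).trans_lt hu)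
    exact ⟨y, fun ⟨n, hn⟩ => lt_asymm hn (hy _ ⟨n, rfl⟩)⟩
  · intro i t ht
    exact ⟨1, by rw [xs]; exact hβ2 _ i t ht⟩
  · intro i u hu r w he hrD hwD
    have below : ∀ n t, t < x n → ∀ y ∈ w.support, t < y := by
      intro n t ht y hy
      by_contra hc
      exact hwD y hy ⟨n, (not_lt.1 hc).trans_lt ht⟩
    obtain ⟨n, hn⟩ : ∃ n, (↑r.support : Set Λ) ⊆ Set.Iio (x n) := by
      choose f hf using fun t : r.support => hrD t.2
      obtain ⟨n, hn⟩ := (Set.finite_range f).bddAbove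
      exact ⟨n, fun t ht => (hf ⟨t, ht⟩).trans_le (xm.monotone (hn ⟨⟨t, ht⟩, rfl⟩))⟩
    have hrw : ∀ s ∈ r.support, ∀ y ∈ w.support, s < y := fun s hs => below n s (hn hs)
    have hex : ∃ w', Q i r (sm Λ F w) w' := ⟨w, he ▸ hu, rfl, hrw⟩
    have hW : Q i r (sm Λ F w) (W i r (sm Λ F w)) := by
      simp only [W, dif_pos hex]; exact hex.choose_spec
    obtain ⟨q1, q2, q3⟩ := hW
    have q4 : ∀ s ∈ (W i r (sm Λ F w)).support, ∀ y ∈ w.support, s < y := fun s hs =>
      below (n + 1) s (by rw [xs]; exact hβ3 _ i r _ hn s hs)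
    have e := hU i _ q1 _ hu
    have b1 := bf_lt _ _ hrw
    have b2 := bf_lt _ _ q3
    have b3 := bf_lt _ _ q4
    rw [he] at e
    simp only [map_add, LinearMap.add_apply, b1.1, b1.2, b2.1, b2.2, b3.1, b3.2, q2] at e
    have : sm Λ F w * sm Λ F w = 0 := by linear_combination e
    exact mul_self_eq_zero.1 this

theorem key_group (p : ℕ) [Fact p.Prime] {lam : Cardinal.{0}} (hr : lam.IsRegular)
    (hu : ℵ₀ < lam) (hΛ : #Λ = lam) (hI : ∀ x : Λ, #(Set.Iio x) < lam)
    (ι : Type) (H : ι → Subgroup (EG Λ (ZMod p))) (a : ι → EG Λ (ZMod p)) (hι : #ι < lam)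
    (hz : ∀ i, (⟨0, 1⟩ : EG Λ (ZMod p)) ∉ H i) :
    ∃ K : Subgroup (EG Λ (ZMod p)), K ≠ ⊤ ∧ (⟨0, 1⟩ : EG Λ (ZMod p)) ∈ K ∧ (∀ i, H i ≤ K) ∧
      ∀ i, a i ∈ K := by
  classical
  obtain ⟨D, ⟨y, hy⟩, hD1, hD2⟩ := key_cut hr hu hΛ hI ι hι (fun i => EG.v '' (H i : Set _))
    (by
      rintro i _ ⟨g, hg, rfl⟩ _ ⟨h, hh, rfl⟩
      by_contra hne
      have hc : ⁅g, h⁆ ∈ H i := by
        rw [commutatorElement_def]
        exact (H i).mul_mem ((H i).mul_mem ((H i).mul_mem hg hh) ((H i).inv_mem hg))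
          ((H i).inv_mem hh)
      rw [EG.comm_eq] at hc
      have := (H i).pow_mem hc
        ((bf Λ (ZMod p) g.v h.v - bf Λ (ZMod p) h.v g.v)⁻¹).val
      rw [EG.pow_central, ZMod.natCast_zmod_val, inv_mul_cancel₀ (sub_ne_zero.2 hne)] at this
      exact hz i this) (fun i => (a i).v)
  let K : Subgroup (EG Λ (ZMod p)) :=
    { carrier := {g | sm Λ (ZMod p) (g.v.filter (· ∉ D)) = 0}
      one_mem' := by simp [Finsupp.filter_zero]
      mul_mem' := by
        intro g h hg hh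
        simp only [Set.mem_ofPred_eq, EG.mul_v, Finsupp.filter_add, map_add] at *
        rw [hg, hh, add_zero]
      inv_mem' := by
        intro g hg
        simp only [Set.mem_ofPred_eq, EG.inv_v, Finsupp.filter_neg, map_neg] at *
        rw [hg, neg_zero] }
  have mem : ∀ g, g ∈ K ↔ sm Λ (ZMod p) (g.v.filter (· ∉ D)) = 0 := fun _ => Iff.rfl
  refine ⟨K, ?_, by simp [mem, Finsupp.filter_zero], ?_, ?_⟩
  · intro hK
    have : (⟨Finsupp.single y 1, 0⟩ : EG Λ (ZMod p)) ∈ K := hK ▸ Subgroup.mem_top _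
    rw [mem, Finsupp.filter_single_of_pos (p := (· ∉ D)) hy] at this
    simp [sm] at this
  · intro i g hg
    rw [mem]
    refine hD2 i g.v ⟨g, hg, rfl⟩ (g.v.filter (· ∈ D)) _
      (Finsupp.filter_add_filter_not _ _).symm ?_ ?_
    · intro t ht
      simp only [Finsupp.support_filter, Finset.coe_filter] at ht
      exact ht.2
    · intro t ht
      simp only [Finsupp.support_filter, Finset.mem_filter] at ht
      exact ht.2
  · intro i
    rw [mem]
    have : (a i).v.filter (· ∉ D) = 0 := by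
      rw [Finsupp.filter_eq_zero_iff]
      intro t ht
      by_contra hne
      exact ht (hD1 i (Finsupp.mem_support_iff.2 hne))
    rw [this, map_zero]

end Pool.Agent.MP_0f290c_co
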