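import Mathlib

set_option autoImplicit false

namespace Pool.Agent.MP_0f290c_co

open Cardinal
open scoped commutatorElement

theorem lb_core {G V : Type} [Group G] [MulAction G V] (X : SimpleGraph V)
    (hadj : ∀ (g : G) (u v : V), X.Adj u v → X.Adj (g • u) (g • v))
    (hfull : ∀ φ : X ≃g X, ∃ g : G, ∀ v, φ v = g • v)
    (z : G) (hz : ∀ g, g * z = z * g) (hcl : ∀ x y w : G, w * ⁅x, y⁆ = ⁅x, y⁆ * w)
    (R : Set V)
    (hR2 : ∀ u v, X.Adj u v → ∃ g : G, ∃ r ∈ R, ∃ r' ∈ R, u = g • r ∧ v = g • r')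
    (S : Subgroup G) (hzS : z ∈ S)
    (hst : ∀ r ∈ R, z • r ≠ r → ∀ g : G, g • r = r → g ∈ S)
    (hor : ∀ r ∈ R, ∀ r' ∈ R, (∃ g : G, g • r = r') → ∃ a ∈ S, a • r = r')
    (h h' : G) (hh : h ∉ S) (hh' : h' ∉ S) (hhh : h⁻¹ * h' ∉ S) : ∀ r ∈ R, z • r = r := by
  classical
  let P : V → Prop := fun v => ∃ g : G, ∃ r ∈ R, v = g • r ∧ h⁻¹ * g ∈ S
  have comm : ∀ (c : G), (∀ g, g * c = c * g) → ∀ (g : G) (r : V), c • g • r = g • c • r := by
    intro c hc g r
    rw [← mul_smul, ← hc, mul_smul]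
  have wd : ∀ (g : G), ∀ r ∈ R, z • g • r ≠ g • r → P (g • r) → h⁻¹ * g ∈ S := by
    rintro g r hr hne ⟨g', r', hr', he, hg'⟩
    obtain ⟨a, haS, ha⟩ := hor r hr r' hr' ⟨g'⁻¹ * g, by rw [mul_smul, he, inv_smul_smul]⟩
    have hzr : z • r ≠ r := by
      intro e; apply hne; rw [comm z hz, e]
    have h1 : a⁻¹ * (g'⁻¹ * g) ∈ S := by
      apply hst r hr hzr
      rw [mul_smul, mul_smul, he, inv_smul_smul, ← ha, inv_smul_smul]
    have h2 : g'⁻¹ * g ∈ S := by simpa using S.mul_mem haS h1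
    have := S.mul_mem hg' h2
    simpa [mul_assoc] using this
  have Pz : ∀ c : G, c ∈ S → (∀ g, g * c = c * g) → ∀ v, P v → P (c • v) := by
    rintro c hc hcc v ⟨g, r, hr, he, hg⟩
    refine ⟨g * c, r, hr, by rw [he, hcc, mul_smul], ?_⟩
    rw [← mul_assoc]; exact S.mul_mem hg hc
  have hzi : ∀ g, g * z⁻¹ = z⁻¹ * g := by
    intro g
    rw [eq_inv_mul_iff_mul_eq, ← mul_assoc, ← hz, mul_inv_cancel_right]
  let σ : G → V → V := fun c v => if P v then c • v else v
  have σadj : ∀ c : G, (∀ v : V, z • v = v → c • v = v) → ∀ u v, X.Adj u v →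
      X.Adj (σ c u) (σ c v) := by
    intro c hc u v huv
    obtain ⟨g, r, hr, r', hr', hu, hv⟩ := hR2 u v huv
    by_cases hg : h⁻¹ * g ∈ S
    · have p1 : P u := ⟨g, r, hr, hu, hg⟩
      have p2 : P v := ⟨g, r', hr', hv, hg⟩
      simp only [σ, if_pos p1, if_pos p2]
      exact hadj c u v huv
    · have key : ∀ r ∈ R, σ c (g • r) = g • r := by
        intro r hr
        by_cases hp : P (g • r)
        · simp only [σ, if_pos hp]
          apply hc
          by_contra hne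
          exact hg (wd g r hr hne hp)
        · simp only [σ, if_neg hp]
      rw [hu, hv, key r hr, key r' hr', ← hu, ← hv]; exact huv
  have σinv : ∀ c : G, c ∈ S → (∀ g, g * c = c * g) → ∀ v, σ c⁻¹ (σ c v) = v := by
    intro c hc hcc v
    by_cases hp : P v
    · have := Pz c hc hcc v hp
      simp only [σ, if_pos hp, if_pos this, inv_smul_smul]
    · simp only [σ, if_neg hp]
  have l1 : ∀ v, σ z⁻¹ (σ z v) = v := σinv z hzS hz
  have l2 : ∀ v, σ z (σ z⁻¹ v) = v := by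
    have := σinv z⁻¹ (S.inv_mem hzS) hzi
    rwa [inv_inv] at this
  let φ : X ≃g X :=
    { toFun := σ z, invFun := σ z⁻¹, left_inv := l1, right_inv := l2
      map_rel_iff' := by
        intro u v
        constructor
        · intro huv
          have := σadj z⁻¹ (fun w hw => by rw [inv_smul_eq_iff, hw]) _ _ huv
          simp only [Equiv.coe_fn_mk] at this
          rwa [l1, l1] at this
        · exact σadj z (fun w hw => hw) u v }
  obtain ⟨γ, hγ⟩ := hfull φ
  have hγ' : ∀ v, σ z v = γ • v := hγ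
  intro r hr
  by_contra hne
  have mv : ∀ g : G, z • g • r ≠ g • r := by
    intro g e
    rw [comm z hz] at e
    exact hne (smul_left_cancel g e)
  have fix : ∀ g : G, h⁻¹ * g ∉ S → γ • g • r = g • r := by
    intro g hg
    rw [← hγ']
    have : ¬ P (g • r) := fun hp => hg (wd g r hr (mv g) hp)
    simp only [σ, if_neg this]
  have f1 : γ • r = r := by
    have := fix 1 (by rw [mul_one]; exact fun e => hh (by simpa using S.inv_mem e))
    simpa using this
  have f2 : γ • h' • r = h' • r := fix h' hhh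
  have f3 : γ • (h * h') • r = (h * h') • r := fix (h * h') (by simpa using hh')
  have f4 : γ • h • r = z • h • r := by
    rw [← hγ']
    have : P (h • r) := ⟨h, r, hr, rfl, by simp⟩
    simp only [σ, if_pos this]
  have hc : γ * h = ⁅γ, h⁆ * h * γ := by simp [commutatorElement_def, mul_assoc]
  have cc := comm ⁅γ, h⁆ (hcl γ h)
  have f5 : ⁅γ, h⁆ • r = r := by
    rw [← mul_smul, ← mul_assoc, hc, mul_smul, mul_smul, mul_smul, f2, cc, cc, mul_smul] at f3
    exact smul_left_cancel h' (smul_left_cancel h f3)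
  rw [← mul_smul, hc, mul_smul, mul_smul, f1, cc, f5] at f4
  exact mv h f4.symm

theorem lb {G : Type} [Group G] (z : G) (hz1 : z ≠ 1) (hz : ∀ g, g * z = z * g)
    (hcl : ∀ x y w : G, w * ⁅x, y⁆ = ⁅x, y⁆ * w) (lam : Cardinal.{0}) (hl : ℵ₀ ≤ lam)
    (hkey : ∀ (ι : Type) (H : ι → Subgroup G) (a : ι → G), #ι < lam → (∀ i, z ∉ H i) →
      ∃ K : Subgroup G, K ≠ ⊤ ∧ z ∈ K ∧ (∀ i, H i ≤ K) ∧ ∀ i, a i ∈ K)
    (V : Type) (X : SimpleGraph V) (ψ : G ≃* SimpleGraph.Iso X X) (S : Set (Sym2 V))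
    (hS : ∀ e ∈ X.edgeSet, ∃ s ∈ S, ∃ φ : SimpleGraph.Iso X X, Sym2.map (⇑φ) s = e) :
    lam ≤ #S := by
  classical
  by_contra hlt
  rw [not_le] at hlt
  letI : MulAction G V :=
    { smul := fun g v => ψ g v
      one_smul := fun v => by change ψ 1 v = v; rw [map_one]; rfl
      mul_smul := fun g h v => by change ψ (g * h) v = ψ g (ψ h v); rw [map_mul]; rfl }
  have hsm : ∀ (g : G) (v : V), g • v = ψ g v := fun _ _ => rfl
  have hfull : ∀ φ : X ≃g X, ∃ g : G, ∀ v, φ v = g • v := fun φ =>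
    ⟨ψ.symm φ, fun v => by rw [hsm, MulEquiv.apply_symm_apply]⟩
  have hadj : ∀ (g : G) (u v : V), X.Adj u v → X.Adj (g • u) (g • v) := fun g u v huv =>
    (ψ g).map_rel_iff.2 huv
  obtain ⟨I0, hI0, hI1⟩ : ∃ I0 : Set V, #I0 ≤ 1 ∧
      ∀ v, (∀ u, ¬ X.Adj v u) → ∃ w ∈ I0, ∀ u, ¬ X.Adj w u := by
    by_cases hex : ∃ w, ∀ u, ¬ X.Adj w u
    · obtain ⟨w, hw⟩ := hex
      exact ⟨{w}, by simp, fun v _ => ⟨w, rfl, hw⟩⟩
    · exact ⟨∅, by simp, fun v hv => (hex ⟨v, hv⟩).elim⟩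
  let R : Set V := ((fun s : Sym2 V => s.out.1) '' S ∪ (fun s : Sym2 V => s.out.2) '' S) ∪ I0
  have hRc : #R < lam := by
    refine (mk_union_le _ _).trans_lt (add_lt_of_lt hl ?_ (hI0.trans_lt (one_lt_aleph0.trans_le hl)))
    exact (mk_union_le _ _).trans_lt
      (add_lt_of_lt hl (mk_image_le.trans_lt hlt) (mk_image_le.trans_lt hlt))
  have hR2 : ∀ u v, X.Adj u v → ∃ g : G, ∃ r ∈ R, ∃ r' ∈ R, u = g • r ∧ v = g • r' := by
    intro u v huv
    obtain ⟨s, hs, φ, he⟩ := hS s(u, v) huv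
    obtain ⟨g, hg⟩ := hfull φ
    have m1 : s.out.1 ∈ R := Or.inl (Or.inl ⟨s, hs, rfl⟩)
    have m2 : s.out.2 ∈ R := Or.inl (Or.inr ⟨s, hs, rfl⟩)
    have hs' : s = s(s.out.1, s.out.2) := (Quot.out_eq s).symm
    rw [hs', Sym2.map_mk, Sym2.eq_iff, hg, hg] at he
    rcases he with ⟨e1, e2⟩ | ⟨e1, e2⟩
    · exact ⟨g, _, m1, _, m2, e1.symm, e2.symm⟩
    · exact ⟨g, _, m2, _, m1, e2.symm, e1.symm⟩
  have hR1 : ∀ v, ∃ g : G, ∃ r ∈ R, v = g • r := by
    intro v
    by_cases hv : ∀ u, ¬ X.Adj v u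
    · obtain ⟨w, hw, hw'⟩ := hI1 v hv
      have aux : ∀ a b, X.Adj a b → X.Adj (Equiv.swap w v a) (Equiv.swap w v b) := by
        intro a b hab
        rw [Equiv.swap_apply_of_ne_of_ne, Equiv.swap_apply_of_ne_of_ne]
        · exact hab
        · rintro rfl; exact hw' a hab.symm
        · rintro rfl; exact hv a hab.symm
        · rintro rfl; exact hw' b hab
        · rintro rfl; exact hv b hab
      let φ : X ≃g X :=
        { toEquiv := Equiv.swap w v
          map_rel_iff' := by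
            intro a b
            refine ⟨fun hab => ?_, aux a b⟩
            have := aux _ _ hab
            simpa using this }
      obtain ⟨g, hg⟩ := hfull φ
      refine ⟨g, w, Or.inr hw, ?_⟩
      rw [← hg]
      exact (Equiv.swap_apply_left w v).symm
    · push Not at hv
      obtain ⟨u, hu⟩ := hv
      obtain ⟨g, r, hr, -, -, e, -⟩ := hR2 v u hu
      exact ⟨g, r, hr, e⟩
  let H : Option (R × R) → Subgroup G := fun o => match o with
    | none => ⊥
    | some q => if z • (q.1 : V) = q.1 then ⊥ else MulAction.stabilizer G (q.1 : V)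
  let a : G → Option (R × R) → G := fun h o => match o with
    | none => h
    | some q => if hq : ∃ g : G, g • (q.1 : V) = q.2 then hq.choose else 1
  have hι : #(Option (R × R)) < lam := by
    rw [mk_option, mk_prod, lift_id]
    exact add_lt_of_lt hl (mul_lt_of_lt hl hRc hRc) (one_lt_aleph0.trans_le hl)
  have hzH : ∀ o, z ∉ H o := by
    rintro (_ | q)
    · simpa [H] using hz1
    · by_cases hq : z • (q.1 : V) = q.1
      · simpa [H, hq] using hz1
      · simpa [H, hq] using hq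
  obtain ⟨K1, hK1, z1, H1, a1⟩ := hkey _ H (a 1) hι hzH
  obtain ⟨h, hh⟩ : ∃ h, h ∉ K1 := by
    by_contra hc; push Not at hc; exact hK1 ((Subgroup.eq_top_iff' _).2 hc)
  obtain ⟨K2, hK2, z2, H2, a2⟩ := hkey _ H (a h) hι hzH
  obtain ⟨h', hh'⟩ : ∃ h, h ∉ K2 := by
    by_contra hc; push Not at hc; exact hK2 ((Subgroup.eq_top_iff' _).2 hc)
  have hK : h ∈ K2 := a2 none
  have := lb_core X hadj hfull z hz hcl R hR2 (K1 ⊓ K2) ⟨z1, z2⟩
    (by
      intro r hr hne g hg
      have hm : g ∈ H (some (⟨r, hr⟩, ⟨r, hr⟩)) := by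
        simp only [H, if_neg hne]; exact hg
      exact ⟨H1 (some (⟨r, hr⟩, ⟨r, hr⟩)) hm, H2 (some (⟨r, hr⟩, ⟨r, hr⟩)) hm⟩)
    (by
      intro r hr r' hr' hex
      have e1 := a1 (some (⟨r, hr⟩, ⟨r', hr'⟩))
      have e2 := a2 (some (⟨r, hr⟩, ⟨r', hr'⟩))
      simp only [a, dif_pos hex] at e1 e2
      exact ⟨hex.choose, ⟨e1, e2⟩, hex.choose_spec⟩)
    h h' (fun e => hh e.1) (fun e => hh' e.2)
    (fun e => hh' (by simpa using K2.mul_mem hK e.2))
  apply hz1
  apply ψ.injective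
  rw [map_one]
  ext v
  obtain ⟨g, r, hr, e⟩ := hR1 v
  rw [← hsm, e, ← mul_smul, ← hz, mul_smul, this r hr]
  rfl

end Pool.Agent.MP_0f290c_co
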