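import Mathlib

set_option autoImplicit false

namespace Pool.Agent.MP_0f290c_co

open Cardinal

/-- `G` is represented by a graph with at most `κ` edge-orbits. -/
def Rep (G : Type) [Group G] (κ : Cardinal.{0}) : Prop :=
  ∃ (V : Type) (X : SimpleGraph V), Nonempty (G ≃* SimpleGraph.Iso X X) ∧
    ∃ S : Set (Sym2 V), S ⊆ X.edgeSet ∧
      (∀ e ∈ X.edgeSet, ∃ s ∈ S, ∃ φ : SimpleGraph.Iso X X, Sym2.map (⇑φ) s = e) ∧ #S ≤ κ

theorem rep_of_action {G V : Type} [Group G] [MulAction G V] (X : SimpleGraph V)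
    (hadj : ∀ (g : G) (u v : V), X.Adj u v → X.Adj (g • u) (g • v))
    (hfaith : ∀ g : G, (∀ v : V, g • v = v) → g = 1)
    (hfull : ∀ φ : X ≃g X, ∃ g : G, ∀ v, φ v = g • v)
    (κ : Cardinal.{0}) (hκ : ℵ₀ ≤ κ) (R : Set V) (hR : #R ≤ κ)
    (hR2 : ∀ u v, X.Adj u v → ∃ g : G, ∃ r ∈ R, ∃ r' ∈ R, u = g • r ∧ v = g • r') :
    Rep G κ := by
  let f : G →* SimpleGraph.Iso X X :=
    { toFun := fun g =>
        { toEquiv := MulAction.toPerm g
          map_rel_iff' := by
            intro u v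
            refine ⟨fun h => ?_, hadj g u v⟩
            simpa using hadj g⁻¹ _ _ h }
      map_one' := by ext v; simp
      map_mul' := by intro g h; ext v; simp [mul_smul] }
  have hf : ∀ g v, f g v = g • v := fun _ _ => rfl
  have hb : Function.Bijective f := by
    constructor
    · rw [injective_iff_map_eq_one]
      intro g hg
      apply hfaith
      intro v
      rw [← hf, hg]; rfl
    · intro φ
      obtain ⟨g, hg⟩ := hfull φ
      exact ⟨g, by ext v; rw [hf, hg]⟩
  refine ⟨V, X, ⟨MulEquiv.ofBijective f hb⟩,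
    X.edgeSet ∩ Set.range (fun q : R × R => s((q.1 : V), (q.2 : V))), Set.inter_subset_left, ?_, ?_⟩
  · intro e he
    induction e using Sym2.ind with
    | _ u v =>
      obtain ⟨g, r, hr, r', hr', hu, hv⟩ := hR2 u v he
      refine ⟨s(r, r'), ⟨?_, ⟨(⟨r, hr⟩, ⟨r', hr'⟩), rfl⟩⟩, f g, ?_⟩
      · have := hadj g⁻¹ u v he
        rw [hu, hv, inv_smul_smul, inv_smul_smul] at this
        exact this
      · rw [Sym2.map_mk, hf, hf, hu, hv]
  · refine (mk_le_mk_of_subset Set.inter_subset_right).trans (mk_range_le.trans ?_)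
    rw [mk_prod, lift_id]
    exact (mul_le_mul' hR hR).trans (mul_eq_self hκ).le

/-- vertices of the graph with palette -/
inductive PV (M C : Type) : Type
  | m (x : M) : PV M C
  | c (y : C) : PV M C
  | d : PV M C
  | t : PV M C

/-- the graph with palette -/
def palG {M C : Type} [LinearOrder C] (Γ : SimpleGraph M) (col : M → C) :
    SimpleGraph (PV M C) where
  Adj
    | .m x, .m y => Γ.Adj x y
    | .m x, .c y => col x < y
    | .c y, .m x => col x < y
    | .c _, .c _ => False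
    | .d, .m _ => True
    | .m _, .d => True
    | .d, .c _ => True
    | .c _, .d => True
    | .t, .c _ => True
    | .c _, .t => True
    | .t, .m _ => False
    | .m _, .t => False
    | .d, .d => False
    | .d, .t => False
    | .t, .d => False
    | .t, .t => False
  symm := ⟨by
    rintro (x | x | _ | _) (y | y | _ | _) h <;> first | exact h | exact Γ.adj_symm h⟩
  loopless := ⟨by
    rintro (x | x | _ | _) h <;> first | exact h | exact Γ.irrefl h⟩

instance {G M C : Type} [Group G] [MulAction G M] : MulAction G (PV M C) where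
  smul g v := match v with
    | .m x => .m (g • x)
    | .c y => .c y
    | .d => .d
    | .t => .t
  one_smul v := by
    rcases v with x | x | _ | _
    · change PV.m ((1 : G) • x) = _; rw [one_smul]
    all_goals rfl
  mul_smul g h v := by
    rcases v with x | x | _ | _
    · change PV.m ((g * h) • x) = PV.m (g • h • x); rw [mul_smul]
    all_goals rfl

theorem pal_aut {M C : Type} [LinearOrder C] [Nontrivial C] (Γ : SimpleGraph M) (col : M → C)
    (hs : Function.Surjective col) (φ : palG Γ col ≃g palG Γ col) :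
    φ .d = .d ∧ φ .t = .t ∧ (∀ y, ∃ y', φ (.c y) = .c y') ∧ ∀ x, ∃ x', φ (.m x) = .m x' := by
  have two : ∀ v : PV M C, v ≠ .d → ∃ a b, a ≠ b ∧ a ≠ v ∧ b ≠ v ∧ ¬ (palG Γ col).Adj v a ∧
      ¬ (palG Γ col).Adj v b := by
    rintro (x | y | _ | _) hv
    · exact ⟨.t, .c (col x), by simp, by simp, by simp, fun h => h, lt_irrefl _⟩
    · obtain ⟨x, hx⟩ := hs y
      obtain ⟨y', hy'⟩ := exists_ne y
      exact ⟨.m x, .c y', by simp, by simp, by simpa using hy', fun h => lt_irrefl _ (hx ▸ h),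
        fun h => h⟩
    · exact (hv rfl).elim
    · obtain ⟨y, -⟩ := exists_pair_ne C
      obtain ⟨x, -⟩ := hs y
      exact ⟨.d, .m x, by simp, by simp, by simp, fun h => h, fun h => h⟩
  have one : ∀ a : PV M C, a ≠ .d → ¬ (palG Γ col).Adj .d a → a = .t := by
    rintro (x | y | _ | _) h1 h2
    · exact (h2 trivial).elim
    · exact (h2 trivial).elim
    · exact (h1 rfl).elim
    · rfl
  have hd : φ .d = .d := by
    by_contra hne
    obtain ⟨a, b, hab, ha, hb, na, nb⟩ := two _ hne
    obtain ⟨a, rfl⟩ := φ.surjective a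
    obtain ⟨b, rfl⟩ := φ.surjective b
    rw [φ.map_rel_iff] at na nb
    have e1 := one a (fun e => ha (by rw [e])) na
    have e2 := one b (fun e => hb (by rw [e])) nb
    exact hab (by rw [e1, e2])
  have ht : φ .t = .t := by
    apply one
    · rw [← hd]; intro e; cases φ.injective e
    · rw [← hd, φ.map_rel_iff]; exact fun h => h
  refine ⟨hd, ht, fun y => ?_, fun x => ?_⟩
  · have : (palG Γ col).Adj (φ .t) (φ (.c y)) := φ.map_rel_iff.2 trivial
    rw [ht] at this
    rcases h : φ (.c y) with x | y' | _ | _ <;> rw [h] at this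
    · exact this.elim
    · exact ⟨y', rfl⟩
    · exact this.elim
    · exact this.elim
  · have h1 : ¬ (palG Γ col).Adj (φ .t) (φ (.m x)) := fun h => φ.map_rel_iff.1 h
    rw [ht] at h1
    rcases h : φ (.m x) with x' | y' | _ | _
    · exact ⟨x', rfl⟩
    · rw [h] at h1; exact (h1 trivial).elim
    · rw [← hd] at h; cases φ.injective h
    · rw [← ht] at h; cases φ.injective h

theorem pal_le {M C : Type} [LinearOrder C] [WellFoundedLT C] [Nontrivial C] (Γ : SimpleGraph M)
    (col : M → C) (hs : Function.Surjective col) (φ : palG Γ col ≃g palG Γ col) (x x' : M)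
    (h : φ (.m x) = .m x') : col x ≤ col x' := by
  obtain ⟨-, -, hc, hm⟩ := pal_aut Γ col hs φ
  obtain ⟨-, -, hc', -⟩ := pal_aut Γ col hs φ.symm
  choose p hp using hc
  choose q hq using hm
  have key : ∀ x y, col (q x) < p y ↔ col x < y := by
    intro x y
    have : (palG Γ col).Adj (φ (.m x)) (φ (.c y)) ↔ (palG Γ col).Adj (.m x) (.c y) :=
      φ.map_rel_iff
    rwa [hq, hp] at this
  have psurj : Function.Surjective p := by
    intro y
    obtain ⟨y', hy'⟩ := hc' y
    refine ⟨y', ?_⟩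
    have : φ (.c y') = .c y := by rw [← hy']; exact φ.apply_symm_apply _
    rw [hp] at this
    exact PV.c.inj this
  have mono : ∀ a b, col a < col b → col (q a) < col (q b) := by
    intro a b hab
    have h1 := (key a (col b)).2 hab
    have h2 : ¬ col (q b) < p (col b) := fun e => lt_irrefl _ ((key b _).1 e)
    exact h1.trans_le (not_lt.1 h2)
  have wd : ∀ a b, col a = col b → col (q a) ≤ col (q b) := by
    intro a b hab
    by_contra hlt
    obtain ⟨y, hy⟩ := psurj (col (q a))
    have h1 : col (q b) < p y := hy ▸ not_le.1 hlt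
    have h2 : col (q a) < p y := (key a y).2 (hab ▸ (key b y).1 h1)
    exact lt_irrefl _ (hy ▸ h2)
  choose s hs' using hs
  have sm : StrictMono fun y => col (q (s y)) := fun a b hab => mono _ _ (by rwa [hs', hs'])
  have e : x' = q x := by rw [hq] at h; exact (PV.m.inj h).symm
  rw [e]
  exact (sm.le_apply (x := col x)).trans (wd _ _ (hs' _))

theorem rep_of_coloured {G M C : Type} [Group G] [MulAction G M] [Nontrivial C]
    (Γ : SimpleGraph M) (col : M → C) (hs : Function.Surjective col)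
    (hcol : ∀ (g : G) x, col (g • x) = col x)
    (hadj : ∀ (g : G) (u v : M), Γ.Adj u v → Γ.Adj (g • u) (g • v))
    (hfaith : ∀ g : G, (∀ v : M, g • v = v) → g = 1)
    (hfull : ∀ π : M → M, (∀ u v, Γ.Adj u v → Γ.Adj (π u) (π v)) → (∀ x, col (π x) = col x) →
      ∃ g : G, ∀ x, π x = g • x)
    (κ : Cardinal.{0}) (hκ : ℵ₀ ≤ κ) (hC : #C ≤ κ) (R : Set M) (hR : #R ≤ κ)
    (hR1 : ∀ x, ∃ g : G, ∃ r ∈ R, x = g • r)
    (hR2 : ∀ u v, Γ.Adj u v → ∃ g : G, ∃ r ∈ R, ∃ r' ∈ R, u = g • r ∧ v = g • r') :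
    Rep G κ := by
  obtain ⟨_, _⟩ := exists_wellFoundedLT C
  have sm : ∀ (g : G) (x : M), g • (PV.m x : PV M C) = .m (g • x) := fun _ _ => rfl
  refine rep_of_action (palG Γ col) ?_ ?_ ?_ κ hκ
    (PV.m '' R ∪ (Set.range PV.c ∪ {PV.d, PV.t})) ?_ ?_
  · rintro g (x | x | _ | _) (y | y | _ | _) h <;> try exact h
    · exact hadj g _ _ h
    · change col (g • x) < y; rw [hcol]; exact h
    · change col (g • y) < x; rw [hcol]; exact h
  · intro g hg
    exact hfaith g fun v => PV.m.inj (hg (.m v))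
  · intro φ
    obtain ⟨hd, ht, hc, hm⟩ := pal_aut Γ col hs φ
    choose q hq using hm
    have hcq : ∀ x, col (q x) = col x := fun x =>
      le_antisymm (pal_le Γ col hs φ.symm _ _ (by rw [← hq]; exact φ.symm_apply_apply _))
        (pal_le Γ col hs φ _ _ (hq x))
    obtain ⟨g, hg⟩ := hfull q (fun u v huv => by
      have : (palG Γ col).Adj (φ (.m u)) (φ (.m v)) := φ.map_rel_iff.2 huv
      rwa [hq, hq] at this) hcq
    refine ⟨g, ?_⟩
    rintro (x | y | _ | _)
    · rw [hq, hg]; rfl
    · obtain ⟨y', hy'⟩ := hc y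
      rw [hy']
      change PV.c y' = PV.c y
      congr 1
      refine eq_of_forall_lt_iff fun z => ?_
      obtain ⟨x, rfl⟩ := hs z
      have : (palG Γ col).Adj (φ (.m x)) (φ (.c y)) ↔ (palG Γ col).Adj (.m x) (.c y) :=
        φ.map_rel_iff
      rw [hq, hy'] at this
      rw [← hcq x]
      exact this.trans (by rw [hcq x]; rfl)
    · exact hd
    · exact ht
  · refine (mk_union_le _ _).trans (add_le_of_le hκ (mk_image_le.trans hR)
      ((mk_union_le _ _).trans (add_le_of_le hκ (mk_range_le.trans hC) ?_)))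
    exact (lt_aleph0_of_finite _).le.trans hκ
  · have fx : ∀ v : PV M C, (∀ x, v ≠ .m x) →
        v ∈ PV.m '' R ∪ (Set.range PV.c ∪ {PV.d, PV.t}) ∧ ∀ g : G, v = g • v := by
      rintro (x | y | _ | _) hv
      · exact (hv x rfl).elim
      · exact ⟨Or.inr (Or.inl ⟨y, rfl⟩), fun _ => rfl⟩
      · exact ⟨Or.inr (Or.inr (by simp)), fun _ => rfl⟩
      · exact ⟨Or.inr (Or.inr (by simp)), fun _ => rfl⟩
    intro u v huv
    by_cases hu : ∃ x, u = .m x <;> by_cases hv : ∃ y, v = .m y
    · obtain ⟨x, rfl⟩ := hu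
      obtain ⟨y, rfl⟩ := hv
      obtain ⟨g, r, hr, r', hr', e1, e2⟩ := hR2 x y huv
      exact ⟨g, .m r, Or.inl ⟨r, hr, rfl⟩, .m r', Or.inl ⟨r', hr', rfl⟩, by rw [sm, e1],
        by rw [sm, e2]⟩
    · obtain ⟨x, rfl⟩ := hu
      push Not at hv
      obtain ⟨g, r, hr, e⟩ := hR1 x
      exact ⟨g, .m r, Or.inl ⟨r, hr, rfl⟩, v, (fx v hv).1, by rw [sm, e], (fx v hv).2 g⟩
    · obtain ⟨x, rfl⟩ := hv
      push Not at hu
      obtain ⟨g, r, hr, e⟩ := hR1 x
      exact ⟨g, u, (fx u hu).1, .m r, Or.inl ⟨r, hr, rfl⟩, (fx u hu).2 g, by rw [sm, e]⟩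
    · push Not at hu hv
      exact ⟨1, u, (fx u hu).1, v, (fx v hv).1, (fx u hu).2 1, (fx v hv).2 1⟩

end Pool.Agent.MP_0f290c_co
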