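import Mathlib
import Pool.Agent.MP_0f290c_co.Pal

set_option autoImplicit false

namespace Pool.Agent.MP_0f290c_co

open Cardinal

/-- at most `κ` subgroups and elements force every compatible map to commute with right
multiplication by the elements of `T` -/
def RigOn (κ : Cardinal.{0}) {G : Type} [Group G] (T : Set G) : Prop :=
  ∃ (ι : Type) (H : ι → Subgroup G) (a : ι → G), #ι ≤ κ ∧ ∀ t : G → G,
    (∀ i x y, x⁻¹ * y ∈ H i → (t x)⁻¹ * t y ∈ H i) → (∀ i x, t (x * a i) = t x * a i) →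
      ∀ s ∈ T, ∀ x, t (x * s) = t x * s

/-- additive version, for the whole group, with countably many data -/
def ARig (A : Type) [AddCommGroup A] : Prop :=
  ∃ (ι : Type) (_ : Countable ι) (H : ι → AddSubgroup A) (a : ι → A), ∀ t : A → A, t 0 = 0 →
    (∀ i x y, y - x ∈ H i → t y - t x ∈ H i) → (∀ i x, t (x + a i) = t x + a i) → ∀ s, t s = s

theorem RigOn.mono {κ : Cardinal.{0}} {G : Type} [Group G] {T T' : Set G} (h : RigOn κ T)
    (hT : T' ⊆ T) : RigOn κ T' := by
  obtain ⟨ι, H, a, hι, h⟩ := h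
  exact ⟨ι, H, a, hι, fun t h1 h2 s hs => h t h1 h2 s (hT hs)⟩

theorem RigOn.closure {κ : Cardinal.{0}} {G : Type} [Group G] {T : Set G} (h : RigOn κ T) :
    RigOn κ (Subgroup.closure T : Set G) := by
  obtain ⟨ι, H, a, hι, h⟩ := h
  refine ⟨ι, H, a, hι, fun t h1 h2 s hs => ?_⟩
  induction hs using Subgroup.closure_induction with
  | mem s hs => exact h t h1 h2 s hs
  | one => simp
  | mul a b _ _ ha hb => intro x; rw [← mul_assoc, hb, ha, mul_assoc]
  | inv a _ ha => intro x; rw [eq_mul_inv_iff_mul_eq, ← ha, inv_mul_cancel_right]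

theorem RigOn.iUnion {κ : Cardinal.{0}} (hκ : ℵ₀ ≤ κ) {G : Type} [Group G] {K : Type}
    (hK : #K ≤ κ) {T : K → Set G} (h : ∀ k, RigOn κ (T k)) : RigOn κ (⋃ k, T k) := by
  choose ι H a hι h using h
  refine ⟨Σ k, ι k, fun q => H q.1 q.2, fun q => a q.1 q.2, ?_, fun t h1 h2 s hs => ?_⟩
  · rw [mk_sigma]
    refine (sum_le_sum _ (fun _ => κ) hι).trans ?_
    rw [sum_const']
    exact (mul_le_mul' hK le_rfl).trans (mul_eq_self hκ).le
  · obtain ⟨k, hk⟩ := Set.mem_iUnion.1 hs
    exact h k t (fun i => h1 ⟨k, i⟩) (fun i => h2 ⟨k, i⟩) s hk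

theorem ARig.rigOn {κ : Cardinal.{0}} (hκ : ℵ₀ ≤ κ) {G A : Type} [Group G] [AddCommGroup A]
    (h : ARig A) (f : Multiplicative A →* G) (hf : Function.Injective f) :
    RigOn κ (Set.range f) := by
  obtain ⟨ι, _, H, a, h⟩ := h
  let F : A → G := fun x => f (Multiplicative.ofAdd x)
  have Fadd : ∀ x y, F (x + y) = F x * F y := fun x y => map_mul f _ _
  have Fsub : ∀ x y, F (y - x) = (F x)⁻¹ * F y := by
    intro x y; rw [eq_inv_mul_iff_mul_eq, ← Fadd]; congr 1; abel
  have Finj : Function.Injective F := fun x y e => hf e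
  refine ⟨Option ι, fun o => match o with
      | none => f.range
      | some i => (AddSubgroup.toSubgroup (H i)).map f,
    fun o => match o with
      | none => 1
      | some i => F (a i), mk_le_aleph0.trans hκ, ?_⟩
  rintro t h1 h2 _ ⟨s, rfl⟩ x
  have ex : ∀ u : A, ∃ w : A, F w = (t x)⁻¹ * t (x * F u) := by
    intro u
    obtain ⟨w, hw⟩ := h1 none x (x * F u) ⟨Multiplicative.ofAdd u, by simp [F]⟩
    exact ⟨w.toAdd, hw⟩
  choose τ hτ using ex
  have F0 : F 0 = 1 := map_one f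
  have := h τ (Finj (by rw [hτ, F0]; simp)) (by
      intro i u v huv
      obtain ⟨w, hw, e⟩ := h1 (some i) (x * F u) (x * F v)
        ⟨Multiplicative.ofAdd (v - u), huv, by
          change F (v - u) = _
          rw [Fsub]; simp [mul_assoc]⟩
      have : F w.toAdd = F (τ v - τ u) := by
        rw [Fsub, hτ, hτ]
        change f w = _
        rw [e]; simp [mul_assoc]
      rw [← Finj this]; exact hw) (by
      intro i u
      apply Finj
      rw [Fadd, hτ, hτ, Fadd, ← mul_assoc, h2 (some i), mul_assoc]) s.toAdd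
  have e := hτ s.toAdd
  rw [this] at e
  change t (x * F s.toAdd) = t x * F s.toAdd
  exact (eq_inv_mul_iff_mul_eq.1 e).symm

theorem ARig.of_countable (A : Type) [AddCommGroup A] [Countable A] : ARig A :=
  ⟨A, inferInstance, fun _ => ⊥, id, fun t h0 _ h2 s => by simpa [h0] using h2 s 0⟩

theorem ARig.congr {A B : Type} [AddCommGroup A] [AddCommGroup B] (e : A ≃+ B) (h : ARig A) :
    ARig B := by
  obtain ⟨ι, _, H, a, h⟩ := h
  refine ⟨ι, inferInstance, fun i => (H i).comap e.symm.toAddMonoidHom, fun i => e (a i),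
    fun t h0 h1 h2 s => ?_⟩
  have := h (fun x => e.symm (t (e x))) (by simp [h0])
    (fun i x y hxy => by
      have := h1 i (e x) (e y) (by simpa using hxy)
      simpa using this)
    (fun i x => by simp [h2]) (e.symm s)
  simpa using this

/-- countably many operators and elements force every compatible endomorphism to vanish on `T` -/
def PPon {B : Type} [AddCommGroup B] (T : Set B) : Prop :=
  ∃ (ι : Type) (_ : Countable ι) (φ : ι → B →+ B) (a : ι → B), ∀ β : B →+ B,
    (∀ i x, β (φ i x) = φ i (β x)) → (∀ i, β (a i) = 0) → ∀ x ∈ T, β x = 0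

theorem net {B : Type} [AddCommGroup B] (h : PPon (Set.univ : Set B)) : ARig (B × B) := by
  obtain ⟨ι, _, φ, a, h⟩ := h
  let gr : (B →+ B) → AddSubgroup (B × B) := fun ψ =>
    { carrier := {q | q.2 = ψ q.1}
      zero_mem' := by simp
      add_mem' := by
        intro p q hp hq
        simp only [Set.mem_ofPred_eq, Prod.snd_add, Prod.fst_add, map_add] at *
        rw [hp, hq]
      neg_mem' := by
        intro p hp
        simp only [Set.mem_ofPred_eq, Prod.snd_neg, Prod.fst_neg, map_neg] at *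
        rw [hp] }
  have mem : ∀ ψ q, q ∈ gr ψ ↔ q.2 = ψ q.1 := fun _ _ => Iff.rfl
  refine ⟨ι ⊕ Option Bool, inferInstance, fun o => match o with
      | .inl i => gr (φ i)
      | .inr none => (AddMonoidHom.fst B B).ker
      | .inr (some true) => gr (AddMonoidHom.id B)
      | .inr (some false) => gr 0,
    fun o => match o with
      | .inl i => (a i, 0)
      | .inr _ => 0, fun t h0 h1 h2 => ?_⟩
  let α : B → B := fun x => (t (x, 0)).1
  have e1 : ∀ x y, (t (x, y)).1 = α x := by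
    intro x y
    have := h1 (.inr none) (x, 0) (x, y) (AddMonoidHom.mem_ker.2 (sub_self x))
    exact sub_eq_zero.1 (AddMonoidHom.mem_ker.1 this)
  have e2 : ∀ x y, (t (x, y)).2 = (t (0, y)).2 := by
    intro x y
    have := h1 (.inr (some false)) (0, y) (x, y) (by simp [mem])
    simpa [mem, sub_eq_zero] using this
  have a0 : α 0 = 0 := by
    change (t 0).1 = 0; rw [h0]; rfl
  have b0 : (t (0, 0)).2 = 0 := by
    change (t 0).2 = 0; rw [h0]; rfl
  have e3 : ∀ x b, (t (0, b)).2 = α (x + b) - α x := by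
    intro x b
    have := h1 (.inr (some true)) (x, 0) (x + b, b) (by simp [mem])
    simp only [mem, Prod.snd_sub, Prod.fst_sub, AddMonoidHom.id_apply] at this
    rwa [e2 (x + b), e2 x, b0, e1, e1, sub_zero] at this
  have e4 : ∀ b, (t (0, b)).2 = α b := by
    intro b; rw [e3 0 b, zero_add, a0, sub_zero]
  let α' : B →+ B := AddMonoidHom.mk' α fun x b => by
    have := e3 x b
    rw [e4] at this
    rw [this]; abel
  have hα : ∀ x, α' x = α x := fun _ => rfl
  have := h (α' - AddMonoidHom.id B) (by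
      intro i x
      have := h1 (.inl i) (0, 0) (x, φ i x) (by simp [mem])
      simp only [mem, Prod.snd_sub, Prod.fst_sub] at this
      rw [e2 x, b0, e1, e1, a0, sub_zero, sub_zero, e4] at this
      simp [hα, this]) (by
      intro i
      have := congrArg Prod.fst (h2 (.inl i) 0)
      rw [h0] at this
      simp only [zero_add] at this
      simp [hα, α, this])
  rintro ⟨x, y⟩
  have z : ∀ x, α x = x := fun x => by simpa [hα, sub_eq_zero] using this x trivial
  ext
  · rw [e1, z]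
  · rw [e2, e4, z]

/-- vertices of the coloured coset geometry -/
inductive MV (G : Type) [Group G] {ι : Type} (H : ι → Subgroup G) : Type
  | base (x : G) : MV G H
  | cos (i : ι) (q : G ⧸ H i) : MV G H
  | fa (i : ι) (x : G) : MV G H
  | fb (i : ι) (x : G) : MV G H

instance {G ι : Type} [Group G] (H : ι → Subgroup G) : MulAction G (MV G H) where
  smul g v := match v with
    | .base x => .base (g * x)
    | .cos i q => .cos i (g • q)
    | .fa i x => .fa i (g * x)
    | .fb i x => .fb i (g * x)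
  one_smul v := by
    rcases v with x | ⟨i, q⟩ | ⟨i, x⟩ | ⟨i, x⟩
    · change MV.base (1 * x) = _; rw [one_mul]
    · change MV.cos i ((1 : G) • q) = _; rw [one_smul]
    · change MV.fa i (1 * x) = _; rw [one_mul]
    · change MV.fb i (1 * x) = _; rw [one_mul]
  mul_smul g h v := by
    rcases v with x | ⟨i, q⟩ | ⟨i, x⟩ | ⟨i, x⟩
    · change MV.base (g * h * x) = MV.base (g * (h * x)); rw [mul_assoc]
    · change MV.cos i ((g * h) • q) = MV.cos i (g • h • q); rw [mul_smul]
    · change MV.fa i (g * h * x) = MV.fa i (g * (h * x)); rw [mul_assoc]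
    · change MV.fb i (g * h * x) = MV.fb i (g * (h * x)); rw [mul_assoc]

/-- oriented edges of the coset geometry -/
inductive ME {G ι : Type} [Group G] (H : ι → Subgroup G) (a : ι → G) : MV G H → MV G H → Prop
  | e1 (i : ι) (x : G) : ME H a (.base x) (.cos i (x : G ⧸ H i))
  | e2 (i : ι) (x : G) : ME H a (.base x) (.fa i x)
  | e3 (i : ι) (x : G) : ME H a (.fa i x) (.fb i x)
  | e4 (i : ι) (x y : G) (h : y = x * a i) : ME H a (.base y) (.fb i x)

/-- colours of the coset geometry -/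
def mcol {G ι : Type} [Group G] (H : ι → Subgroup G) : MV G H → Option (ι × Fin 3)
  | .base _ => none
  | .cos i _ => some (i, 0)
  | .fa i _ => some (i, 1)
  | .fb i _ => some (i, 2)

theorem RigOn.rep {κ : Cardinal.{0}} (hκ : ℵ₀ ≤ κ) {G : Type} [Group G]
    (h : RigOn κ (Set.univ : Set G)) : Rep G κ := by
  obtain ⟨ι, H, a, hι, hne, h⟩ : ∃ (ι : Type) (H : ι → Subgroup G) (a : ι → G), #ι ≤ κ ∧
      Nonempty ι ∧ ∀ t : G → G, (∀ i x y, x⁻¹ * y ∈ H i → (t x)⁻¹ * t y ∈ H i) →
        (∀ i x, t (x * a i) = t x * a i) → ∀ s x, t (x * s) = t x * s := by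
    obtain ⟨ι, H, a, hι, h⟩ := h
    refine ⟨Option ι, fun o => o.elim ⊤ H, fun o => o.elim 1 a, ?_, ⟨none⟩, fun t h1 h2 s =>
      h t (fun i => h1 (some i)) (fun i => h2 (some i)) s trivial⟩
    rw [mk_option]
    exact add_le_of_le hκ hι (one_le_aleph0.trans hκ)
  have s1 : ∀ g x : G, g • (MV.base x : MV G H) = .base (g * x) := fun _ _ => rfl
  have s2 : ∀ (g : G) i (x : G), g • (MV.cos i (x : G ⧸ H i) : MV G H) =
    .cos i ((g * x : G) : G ⧸ H i) := fun _ _ _ => rfl
  have s3 : ∀ (g : G) i (x : G), g • (MV.fa i x : MV G H) = .fa i (g * x) := fun _ _ _ => rfl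
  have s4 : ∀ (g : G) i (x : G), g • (MV.fb i x : MV G H) = .fb i (g * x) := fun _ _ _ => rfl
  have hME : ∀ (g : G) u v, ME H a u v → ME H a (g • u) (g • v) := by
    rintro g _ _ (⟨i, x⟩ | ⟨i, x⟩ | ⟨i, x⟩ | ⟨i, x, y, rfl⟩)
    · exact .e1 i (g * x)
    · exact .e2 i (g * x)
    · exact .e3 i (g * x)
    · exact .e4 i (g * x) _ (mul_assoc _ _ _).symm
  have adj : ∀ u v, ME H a u v → (SimpleGraph.fromRel (ME H a)).Adj u v := by
    intro u v huv
    rw [SimpleGraph.fromRel_adj]
    refine ⟨?_, Or.inl huv⟩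
    rintro rfl
    cases huv
  let R : Set (MV G H) := Set.range fun q : ι × Fin 5 =>
    if q.2 = 0 then .base 1 else if q.2 = 1 then .cos q.1 ((1 : G) : G ⧸ H q.1)
    else if q.2 = 2 then .fa q.1 1 else if q.2 = 3 then .fb q.1 1 else .base (a q.1)
  obtain ⟨i0⟩ := hne
  have r0 : MV.base 1 ∈ R := ⟨(i0, 0), rfl⟩
  have r1 : ∀ i, MV.cos i ((1 : G) : G ⧸ H i) ∈ R := fun i => ⟨(i, 1), rfl⟩
  have r2 : ∀ i, MV.fa i 1 ∈ R := fun i => ⟨(i, 2), rfl⟩
  have r3 : ∀ i, MV.fb i 1 ∈ R := fun i => ⟨(i, 3), rfl⟩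
  have r4 : ∀ i, MV.base (a i) ∈ R := fun i => ⟨(i, 4), rfl⟩
  have fin : ∀ n : ℕ, #(ι × Fin n) ≤ κ := by
    intro n
    rw [mk_prod, lift_id, lift_id]
    exact (mul_le_mul' hι (mk_le_aleph0.trans hκ)).trans (mul_eq_self hκ).le
  have : Nonempty ι := ⟨i0⟩
  refine rep_of_coloured (SimpleGraph.fromRel (ME H a)) (mcol H) ?_ ?_ ?_ ?_ ?_ κ hκ ?_ R
    (mk_range_le.trans (fin 5)) ?_ ?_
  · rintro (_ | ⟨i, j⟩)
    · exact ⟨.base 1, rfl⟩
    · fin_cases j
      · exact ⟨.cos i ((1 : G) : G ⧸ H i), rfl⟩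
      · exact ⟨.fa i 1, rfl⟩
      · exact ⟨.fb i 1, rfl⟩
  · rintro g (x | ⟨i, q⟩ | ⟨i, x⟩ | ⟨i, x⟩) <;> rfl
  · intro g u v huv
    rw [SimpleGraph.fromRel_adj] at huv
    rcases huv.2 with e | e
    · exact adj _ _ (hME g _ _ e)
    · exact (adj _ _ (hME g _ _ e)).symm
  · intro g hg
    simpa using MV.base.inj (hg (.base 1))
  · intro π hπ hc
    have c1 : ∀ x, ∃ y, π (.base x) = .base y := by
      intro x
      have := hc (.base x)
      rcases e : π (.base x) with y | ⟨i, q⟩ | ⟨i, y⟩ | ⟨i, y⟩ <;> rw [e] at this <;>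
        simp [mcol] at this
      exact ⟨y, rfl⟩
    choose t ht using c1
    have c2 : ∀ i (x : G), π (.cos i (x : G ⧸ H i)) = .cos i ((t x : G) : G ⧸ H i) := by
      intro i x
      have h1 := hc (.cos i (x : G ⧸ H i))
      have h2 := hπ _ _ (adj _ _ (.e1 i x))
      rw [ht, SimpleGraph.fromRel_adj] at h2
      rcases e : π (.cos i (x : G ⧸ H i)) with y | ⟨j, q⟩ | ⟨j, y⟩ | ⟨j, y⟩ <;> rw [e] at h1 h2 <;>
        simp [mcol] at h1
      subst h1
      rcases h2.2 with h3 | h3 <;> cases h3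
      rfl
    have c3 : ∀ i (x : G), π (.fa i x) = .fa i (t x) := by
      intro i x
      have h1 := hc (.fa i x)
      have h2 := hπ _ _ (adj _ _ (.e2 i x))
      rw [ht, SimpleGraph.fromRel_adj] at h2
      rcases e : π (.fa i x) with y | ⟨j, q⟩ | ⟨j, y⟩ | ⟨j, y⟩ <;> rw [e] at h1 h2 <;>
        simp [mcol] at h1
      subst h1
      rcases h2.2 with h3 | h3 <;> cases h3
      rfl
    have c4 : ∀ i (x : G), π (.fb i x) = .fb i (t x) := by
      intro i x
      have h1 := hc (.fb i x)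
      have h2 := hπ _ _ (adj _ _ (.e3 i x))
      rw [c3, SimpleGraph.fromRel_adj] at h2
      rcases e : π (.fb i x) with y | ⟨j, q⟩ | ⟨j, y⟩ | ⟨j, y⟩ <;> rw [e] at h1 h2 <;>
        simp [mcol] at h1
      subst h1
      rcases h2.2 with h3 | h3 <;> cases h3
      rfl
    have key := h t (by
        intro i x y hxy
        have e : (x : G ⧸ H i) = y := QuotientGroup.eq.2 hxy
        have := c2 i x
        rw [e, c2] at this
        have e' : ((t y : G) : G ⧸ H i) = t x := by simpa using this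
        exact QuotientGroup.eq.1 e'.symm) (by
        intro i x
        have h2 := hπ _ _ (adj _ _ (.e4 i x _ rfl))
        rw [ht, c4, SimpleGraph.fromRel_adj] at h2
        rcases h2.2 with h3 | h3 <;> cases h3
        assumption)
    have key' : ∀ x, t x = t 1 * x := fun x => by rw [← key, one_mul]
    refine ⟨t 1, ?_⟩
    rintro (x | ⟨i, q⟩ | ⟨i, x⟩ | ⟨i, x⟩)
    · rw [ht, s1, ← key']
    · induction q using QuotientGroup.induction_on with
      | H x => rw [c2, s2, ← key']
    · rw [c3, s3, ← key']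
    · rw [c4, s4, ← key']
  · rw [mk_option]
    exact add_le_of_le hκ (fin 3) (one_le_aleph0.trans hκ)
  · rintro (x | ⟨i, q⟩ | ⟨i, x⟩ | ⟨i, x⟩)
    · exact ⟨x, _, r0, by rw [s1, mul_one]⟩
    · induction q using QuotientGroup.induction_on with
      | H x => exact ⟨x, _, r1 i, by rw [s2, mul_one]⟩
    · exact ⟨x, _, r2 i, by rw [s3, mul_one]⟩
    · exact ⟨x, _, r3 i, by rw [s4, mul_one]⟩
  · have aux : ∀ u v, ME H a u v → ∃ g : G, ∃ r ∈ R, ∃ r' ∈ R, u = g • r ∧ v = g • r' := by
      rintro _ _ (⟨i, x⟩ | ⟨i, x⟩ | ⟨i, x⟩ | ⟨i, x, y, rfl⟩)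
      · exact ⟨x, _, r0, _, r1 i, by rw [s1, mul_one], by rw [s2, mul_one]⟩
      · exact ⟨x, _, r0, _, r2 i, by rw [s1, mul_one], by rw [s3, mul_one]⟩
      · exact ⟨x, _, r2 i, _, r3 i, by rw [s3, mul_one], by rw [s4, mul_one]⟩
      · exact ⟨x, _, r4 i, _, r3 i, by rw [s1], by rw [s4, mul_one]⟩
    intro u v huv
    rw [SimpleGraph.fromRel_adj] at huv
    rcases huv.2 with e | e
    · exact aux _ _ e
    · obtain ⟨g, r, hr, r', hr', e1, e2⟩ := aux _ _ e
      exact ⟨g, r', hr', r, hr, e2, e1⟩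

end Pool.Agent.MP_0f290c_co
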