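import Mathlib
import Pool.Agent.MP_0f290c_co.Rig

set_option autoImplicit false

namespace Pool.Agent.MP_0f290c_co

open Cardinal Finsupp

section general

variable {A B : Type} [AddCommGroup A] [AddCommGroup B]

theorem PPon.mono {T T' : Set B} (h : PPon T) (hT : T' ⊆ T) : PPon T' := by
  obtain ⟨ι, _, φ, a, h⟩ := h
  exact ⟨ι, inferInstance, φ, a, fun β h1 h2 x hx => h β h1 h2 x (hT hx)⟩

theorem PPon.closure {T : Set B} (h : PPon T) : PPon (AddSubgroup.closure T : Set B) := by
  obtain ⟨ι, _, φ, a, h⟩ := h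
  exact ⟨ι, inferInstance, φ, a, fun β h1 h2 x hx =>
    (AddSubgroup.closure_le β.ker).2 (fun y hy => h β h1 h2 y hy) hx⟩

theorem PPon.iUnion {K : Type} [Countable K] {T : K → Set B} (h : ∀ k, PPon (T k)) :
    PPon (⋃ k, T k) := by
  choose ι hι φ a h using h
  refine ⟨Σ k, ι k, inferInstance, fun q => φ q.1 q.2, fun q => a q.1 q.2, fun β h1 h2 x hx => ?_⟩
  obtain ⟨k, hk⟩ := Set.mem_iUnion.1 hx
  exact h k β (fun i => h1 ⟨k, i⟩) (fun i => h2 ⟨k, i⟩) x hk

theorem PPon.of_countable [Countable B] : PPon (Set.univ : Set B) :=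
  ⟨B, inferInstance, fun _ => 0, id, fun _ _ h2 x _ => h2 x⟩

theorem PPon.retract (i : A →+ B) (r : B →+ A) (hr : ∀ x, r (i x) = x)
    (h : PPon (Set.univ : Set A)) : PPon (Set.range i) := by
  obtain ⟨ι, _, φ, a, h⟩ := h
  refine ⟨Option ι, inferInstance, fun o => o.elim (i.comp r) fun k => i.comp ((φ k).comp r),
    fun o => o.elim 0 fun k => i (a k), ?_⟩
  rintro β h1 h2 _ ⟨x, rfl⟩
  have h3 := h (r.comp (β.comp i)) (fun k y => by
    have := congrArg r (h1 (some k) (i y))
    simpa [hr] using this) (fun k => by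
    have := congrArg r (h2 (some k))
    simpa using this) x trivial
  have h4 := h1 none (i x)
  simp only [Option.elim, AddMonoidHom.comp_apply, hr] at h3 h4
  rw [h4, h3, map_zero]

theorem PPon.inj {T : Set B} (h : PPon T) (U : ℕ → B →+ B) (hU : ∀ y, (∀ n, U n y = 0) → y = 0)
    (hT : ∀ n x, U n x ∈ T) : PPon (Set.univ : Set B) := by
  obtain ⟨ι, _, φ, a, h⟩ := h
  refine ⟨ι ⊕ ℕ, inferInstance, Sum.elim φ U, Sum.elim a 0, fun β h1 h2 x _ => hU _ fun n => ?_⟩
  exact (h1 (.inr n) x).symm.trans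
    (h β (fun i => h1 (.inl i)) (fun i => h2 (.inl i)) _ (hT n x))

end general

/-- finite digraphs of out-degree at most `k` have a colouring with `2 k + 1` colours -/
theorem col_fin {J : Type} [DecidableEq J] (F : J → Finset J) (k : ℕ) (hk : ∀ j, (F j).card ≤ k)
    (s : Finset J) : ∃ c : J → Fin (2 * k + 1), ∀ j ∈ s, ∀ j' ∈ s, j' ∈ F j → j' ≠ j → c j' ≠ c j := by
  induction s using Finset.strongInduction with
  | H s ih =>
    rcases s.eq_empty_or_nonempty with rfl | hs
    · exact ⟨fun _ => 0, by simp⟩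
    obtain ⟨v, hv, hd⟩ : ∃ v ∈ s, (s.filter fun j => v ∈ F j).card ≤ k := by
      refine Finset.exists_le_of_sum_le hs ?_
      have h1 := Finset.sum_card_bipartiteAbove_eq_sum_card_bipartiteBelow
        (s := s) (t := s) (fun v j => v ∈ F j)
      refine h1.trans_le (Finset.sum_le_sum fun j _ => le_trans (Finset.card_le_card ?_) (hk j))
      intro x hx
      exact (Finset.mem_filter.1 hx).2
    obtain ⟨c, hc⟩ := ih (s.erase v) (Finset.erase_ssubset hv)
    obtain ⟨x, -, hx⟩ : ∃ x ∈ (Finset.univ : Finset (Fin (2 * k + 1))),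
        x ∉ (F v ∪ s.filter fun j => v ∈ F j).image c := by
      refine Finset.exists_mem_notMem_of_card_lt_card ?_
      have h1 := Finset.card_image_le (s := F v ∪ s.filter fun j => v ∈ F j) (f := c)
      have h2 := Finset.card_union_le (F v) (s.filter fun j => v ∈ F j)
      have h3 := hk v
      rw [Finset.card_univ, Fintype.card_fin]
      omega
    refine ⟨Function.update c v x, fun j hj j' hj' h1 h2 => ?_⟩
    by_cases e : j = v
    · subst e
      rw [Function.update_self, Function.update_of_ne h2]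
      exact fun e => hx (Finset.mem_image.2 ⟨j', Finset.mem_union_left _ h1, e⟩)
    by_cases e' : j' = v
    · subst e'
      rw [Function.update_self, Function.update_of_ne e]
      exact fun e => hx (Finset.mem_image.2
        ⟨j, Finset.mem_union_right _ (Finset.mem_filter.2 ⟨hj, h1⟩), e.symm⟩)
    rw [Function.update_of_ne e, Function.update_of_ne e']
    exact hc j (Finset.mem_erase.2 ⟨e, hj⟩) j' (Finset.mem_erase.2 ⟨e', hj'⟩) h1 h2

/-- a set mapping with finite values has a colouring with countably many colours -/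
theorem col_all {J : Type} (F : J → Finset J) :
    ∃ c : J → ℕ × ℕ, ∀ j, ∀ j' ∈ F j, c j' = c j → j' = j := by
  classical
  have h1 : ∀ k : ℕ, ∃ c : J → Fin (2 * k + 1), ∀ j, (F j).card = k → ∀ j' ∈ F j, j' ≠ j →
      c j' ≠ c j := by
    intro k
    choose g hg using col_fin (fun j => if (F j).card = k then F j else ∅) k fun j => by
      split_ifs with h
      · exact h.le
      · simp
    obtain ⟨χ, hχ⟩ := Finset.rado_selection g
    refine ⟨χ, fun j hj j' hj' hne => ?_⟩
    obtain ⟨t, h1, h2⟩ := hχ {j, j'}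
    rw [h2 j (by simp), h2 j' (by simp)]
    exact hg t j (h1 (by simp)) j' (h1 (by simp)) (by rwa [if_pos hj]) hne
  choose c hc using h1
  refine ⟨fun j => ((F j).card, c (F j).card j), fun j j' hj' e => ?_⟩
  by_contra hne
  obtain ⟨e1, e2⟩ := Prod.ext_iff.1 e
  simp only at e1 e2
  rw [e1] at e2
  exact hc _ j rfl j' hj' hne (Fin.ext e2)

/-- the nodes on a branch -/
def nd {X : Type} (s : X × X → X) (η : ℕ → X) : ℕ → X
  | 0 => η 0
  | n + 1 => s (η (n + 1), nd s η n)

theorem nd_inj {X : Type} {s : X × X → X} (hs : Function.Injective s) {η η' : ℕ → X} (n : ℕ)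
    (h : nd s η n = nd s η' n) : ∀ k ≤ n, η k = η' k := by
  induction n with
  | zero =>
    intro k hk
    rw [Nat.le_zero.1 hk]
    exact h
  | succ n ih =>
    obtain ⟨h1, h2⟩ := Prod.ext_iff.1 (hs h)
    intro k hk
    rcases Nat.le_succ_iff.1 hk with hk | rfl
    · exact ih h2 k hk
    · exact h1

theorem nd_joint {X J J' R : Type} [AddCommGroup R] {s : X × X → X} (hs : Function.Injective s)
    {c : J → ℕ → X} (hc : Function.Injective c) {e : X → J'} (he : Function.Injective e)
    (y : J →₀ R) (h : ∀ n, mapDomain (fun j => e (nd s (c j) n)) y = 0) : y = 0 := by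
  have h1 : ∀ q : J × J, ∃ n : ℕ, c q.1 n = c q.2 n → q.1 = q.2 := fun q => by
    by_cases e : q.1 = q.2
    · exact ⟨0, fun _ => e⟩
    · obtain ⟨n, hn⟩ := Function.ne_iff.1 (hc.ne e)
      exact ⟨n, fun h => absurd h hn⟩
  choose m hm using h1
  have h2 : Set.InjOn (fun j => e (nd s (c j) ((y.support ×ˢ y.support).sup m))) y.support :=
    fun j hj j' hj' h => hm (j, j') (nd_inj hs _ (he h) _
      (Finset.le_sup (f := m) (Finset.mem_product.2 ⟨hj, hj'⟩)))
  ext j
  by_contra hj
  have h3 := mapDomain_apply' _ y subset_rfl h2 (mem_support_iff.2 hj)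
  rw [h] at h3
  exact hj h3.symm

section free

variable {n : ℕ}

instance zmod_countable : Countable (ZMod n) := (ZMod.intCast_surjective (n := n)).countable

theorem pp_single {J : Type} {T : Set (J →₀ ZMod n)} (h : PPon T) (hT : ∀ j, single j 1 ∈ T) :
    PPon (Set.univ : Set (J →₀ ZMod n)) := by
  refine h.closure.mono fun y _ => ?_
  induction y using Finsupp.induction_linear with
  | zero => exact zero_mem _
  | add f g hf hg => exact add_mem (hf trivial) (hg trivial)
  | single j r =>
    have : single j r = (r.cast : ℤ) • single j (1 : ZMod n) := by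
      rw [smul_single, zsmul_eq_mul, mul_one, ZMod.intCast_zmod_cast]
    rw [this]
    exact zsmul_mem (AddSubgroup.subset_closure (hT j)) _

theorem pp_sub {N J : Type} {e : N → J} (he : Function.Injective e)
    (h : PPon (Set.univ : Set (N →₀ ZMod n))) :
    PPon (Set.range (mapDomain.addMonoidHom e : (N →₀ ZMod n) →+ J →₀ ZMod n)) :=
  h.retract _ (comapDomain.addMonoidHom he) fun x => comapDomain_mapDomain e he x

theorem exists_pair (X : Type) [Infinite X] : ∃ s : X × X → X, Function.Injective s := by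
  obtain ⟨s⟩ : Nonempty (X × X ↪ X) := by
    rw [← Cardinal.le_def]
    simp
  exact ⟨s, s.injective⟩

theorem pp_A {N J : Type} [Infinite N] {e : N → J} (he : Function.Injective e) {c : J → ℕ → N}
    (hc : Function.Injective c) (h : PPon (Set.univ : Set (N →₀ ZMod n))) :
    PPon (Set.univ : Set (J →₀ ZMod n)) := by
  obtain ⟨s, hs⟩ := exists_pair N
  refine (pp_sub he h).inj (fun k => mapDomain.addMonoidHom fun j => e (nd s (c j) k))
    (fun y hy => nd_joint hs hc he y hy) fun k x => ⟨mapDomain (fun j => nd s (c j) k) x, ?_⟩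
  exact mapDomain_comp.symm

theorem pp_B {J : Type} (S : ℕ → Set J) (hS : ∀ j, ∃ k, j ∈ S k)
    (h : ∀ k, PPon (Set.univ : Set (S k →₀ ZMod n))) : PPon (Set.univ : Set (J →₀ ZMod n)) := by
  refine pp_single (PPon.iUnion fun k => pp_sub Subtype.val_injective (h k)) fun j => ?_
  obtain ⟨k, hk⟩ := hS j
  exact Set.mem_iUnion.2 ⟨k, single ⟨j, hk⟩ 1, mapDomain_single⟩

theorem pp_C {J : Type} [Infinite J] (b : J ≃ (ℕ → J)) : PPon (Set.univ : Set (J →₀ ZMod n)) := by
  classical
  obtain ⟨s, hs⟩ := exists_pair J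
  obtain ⟨g, hg⟩ : ∃ g : (J →₀ ZMod n) → J, Function.Injective g := by
    obtain ⟨g⟩ : Nonempty ((J →₀ ZMod n) ↪ J) := by
      rw [← Cardinal.le_def]
      cases subsingleton_or_nontrivial (ZMod n) with
      | inl h => exact mk_le_aleph0.trans (aleph0_le_mk J)
      | inr h =>
        rw [mk_finsupp_of_infinite]
        exact max_le le_rfl (mk_le_aleph0.trans (aleph0_le_mk J))
    exact ⟨g, g.injective⟩
  let U : ℕ → (J →₀ ZMod n) →+ J →₀ ZMod n := fun k =>
    mapDomain.addMonoidHom fun j => nd s (b j) k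
  have hU : ∀ y, (∀ k, U k y = 0) → y = 0 := fun y hy =>
    nd_joint hs b.injective Function.injective_id y hy
  have hY : ∀ j, ∃ F : Finset J, ∀ y, (∀ k, b j (k + 1) = g (U k y)) → y.support = F := fun j => by
    by_cases h : ∃ y, ∀ k, b j (k + 1) = g (U k y)
    · obtain ⟨y, hy⟩ := h
      refine ⟨y.support, fun y' hy' => congrArg _ (sub_eq_zero.1 (hU _ fun k => ?_))⟩
      rw [map_sub, hg ((hy' k).symm.trans (hy k)), sub_self]
    · exact ⟨∅, fun y hy => absurd ⟨y, hy⟩ h⟩
  choose F hF using hY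
  obtain ⟨c, hc⟩ := col_all F
  obtain ⟨r⟩ : Nonempty J := inferInstance
  refine pp_single (T := Set.range fun j => single j 1) ⟨Option (ℕ ⊕ ℕ × ℕ), inferInstance,
    fun o => o.elim (mapDomain.addMonoidHom fun _ => r)
      (Sum.elim U fun q => filterAddHom fun j => c j = q), fun _ => single r 1, ?_⟩
    fun j => ⟨j, rfl⟩
  rintro β h1 h2 _ ⟨ν, rfl⟩
  let L : ℕ → J := fun k => Nat.rec ν (fun _ l => s (g (β (single l 1)), l)) k
  let η : ℕ → J := fun k => Nat.casesOn k ν fun k => g (β (single (L k) 1))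
  have hL : ∀ k, nd s η k = L k := fun k => by
    induction k with
    | zero => rfl
    | succ k ih => rw [nd, ih]
  obtain ⟨j, hj⟩ := b.surjective η
  have h3 : ∀ k, U k (β (single j 1)) = β (single (L k) 1) := fun k => by
    rw [← hL, ← hj]
    refine (h1 (some (.inl k)) _).symm.trans (congrArg β ?_)
    exact mapDomain_single
  have h4 := hF j (β (single j 1)) fun k => by rw [h3, hj]
  have h5 : filter (fun j' => c j' = c j) (β (single j 1)) = β (single j 1) := by
    refine (h1 (some (.inr (c j))) _).symm.trans (congrArg β ?_)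
    exact filter_single_of_pos _ rfl
  have h6 : (β (single j 1)).support ⊆ {j} := fun j' hj' => by
    refine Finset.mem_singleton.2 (hc j j' (h4 ▸ hj') ?_)
    rw [← h5, support_filter] at hj'
    exact (Finset.mem_filter.1 hj').2
  have h7 := (support_subset_singleton.1 h6)
  have h8 : mapDomain (fun _ => r) (β (single j 1)) = 0 := by
    refine (h1 none _).symm.trans (Eq.trans (congrArg β ?_) (h2 none))
    exact mapDomain_single
  rw [h7, mapDomain_single, single_eq_zero] at h8
  have h9 := h3 0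
  rw [h7, h8, single_zero, map_zero] at h9
  exact h9.symm

theorem pp_all (J : Type) : PPon (Set.univ : Set (J →₀ ZMod n)) := by
  induction hμ : #J using WellFoundedLT.induction generalizing J with
  | ind μ ih =>
  by_cases hJ : Countable J
  · exact PPon.of_countable
  have : Uncountable J := ⟨hJ⟩
  have : Infinite J := inferInstance
  by_cases hA : ∃ ν < μ, ℵ₀ ≤ ν ∧ μ ≤ ν ^ ℵ₀
  · obtain ⟨ν, h1, h2, h3⟩ := hA
    induction ν using Cardinal.inductionOn with
    | mk N =>
    have : Infinite N := aleph0_le_mk_iff.1 h2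
    obtain ⟨e⟩ := (Cardinal.le_def N J).1 (hμ ▸ h1.le)
    obtain ⟨c⟩ := (Cardinal.le_def J (ℕ → N)).1 (by rw [hμ]; simpa using h3)
    exact pp_A e.injective c.injective (ih _ h1 N rfl)
  by_cases hB : ∃ S : ℕ → Set J, (∀ j, ∃ k, j ∈ S k) ∧ ∀ k, #(S k) < μ
  · obtain ⟨S, h1, h2⟩ := hB
    exact pp_B S h1 fun k => ih _ (h2 k) _ rfl
  have h0 : ℵ₀ < μ := hμ ▸ aleph0_lt_mk
  obtain ⟨_, _, hw⟩ := exists_ord_eq_type_lt J
  have h1 : ∀ i : J, #(Set.Iio i) < μ := fun i => hμ ▸ mk_Iio_lt i hw
  have h2 : ∀ f : ℕ → J, ∃ i, ∀ k, f k < i := fun f => by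
    by_contra hn
    push Not at hn
    refine hB ⟨fun k => insert (f k) (Set.Iio (f k)), fun j => (hn j).imp fun k hk =>
      hk.eq_or_lt, fun k => ?_⟩
    exact mk_insert_le.trans_lt (add_lt_of_lt h0.le (h1 _) (one_lt_aleph0.trans h0))
  have h3 : #(ℕ → J) ≤ μ := by
    choose i hi using h2
    refine (mk_le_of_injective (f := fun f : ℕ → J =>
      (⟨i f, fun k => ⟨f k, hi f k⟩⟩ : Σ i : J, ℕ → Set.Iio i)) fun f f' e => ?_).trans ?_
    · exact congrArg (fun (q : Σ i : J, ℕ → Set.Iio i) k => (q.2 k : J)) e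
    · rw [mk_sigma]
      refine (sum_le_sum _ (fun _ => μ) fun i => ?_).trans ?_
      · by_contra hn
        refine hA ⟨max #(Set.Iio i) ℵ₀, max_lt (h1 i) h0, le_max_right _ _, ?_⟩
        refine (not_le.1 hn).le.trans ?_
        simpa using power_le_power_right (c := ℵ₀) (le_max_left #(Set.Iio i) ℵ₀)
      · rw [sum_const', hμ, mul_eq_self h0.le]
  obtain ⟨b⟩ : Nonempty (J ≃ (ℕ → J)) := by
    rw [← Cardinal.eq]
    refine le_antisymm (mk_le_of_injective (f := fun j _ => j) fun j j' e => congrFun e 0) ?_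
    rwa [hμ]
  exact pp_C b

theorem arig_free (J : Type) : ARig (J →₀ ZMod n) := by
  cases finite_or_infinite J with
  | inl h => exact ARig.of_countable _
  | inr h =>
    obtain ⟨e⟩ : Nonempty (J ⊕ J ≃ J) := by
      rw [← Cardinal.eq]
      simp
    exact (net (pp_all J)).congr (sumFinsuppAddEquivProdFinsupp.symm.trans (Finsupp.domCongr e))

end free

end Pool.Agent.MP_0f290c_co
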