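import Mathlib
import Pool.Agent.MP_0f290c_co.PP

set_option autoImplicit false

namespace Pool.Agent.MP_0f290c_co

open Cardinal Finsupp

section sum

variable {A : Type} [AddCommGroup A]

theorem basis_mod (p : ℕ) [Fact p.Prime] (Q : Type) [AddCommGroup Q] [Module (ZMod p) Q] :
    ∃ (J : Type) (b : J → Q), (∀ y, y ∈ AddSubgroup.closure (Set.range b)) ∧
      ∀ c : J →₀ ℤ, linearCombination ℤ b c = 0 → ∀ j, (p : ℤ) ∣ c j := by
  obtain ⟨J, ⟨b⟩⟩ : ∃ J : Type, Nonempty (Module.Basis J (ZMod p) Q) :=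
    ⟨_, ⟨Module.Basis.ofVectorSpace _ _⟩⟩
  refine ⟨J, b, fun y => ?_, fun c hc j => ?_⟩
  · have hy : y ∈ Submodule.span (ZMod p) (Set.range b) := by rw [b.span_eq]; trivial
    induction hy using Submodule.span_induction with
    | mem y hy => exact AddSubgroup.subset_closure hy
    | zero => exact zero_mem _
    | add y y' _ _ h1 h2 => exact add_mem h1 h2
    | smul a y _ h1 =>
      obtain ⟨n, rfl⟩ := ZMod.natCast_zmod_surjective a
      rw [Nat.cast_smul_eq_nsmul]
      exact nsmul_mem h1 n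
  · have h3 : linearCombination (ZMod p) b
        (c.mapRange (fun a : ℤ => (a : ZMod p)) Int.cast_zero) = 0 := by
      rw [← hc, linearCombination_apply, linearCombination_apply,
        sum_mapRange_index fun i => zero_smul _ (b i)]
      exact sum_congr fun i _ => Int.cast_smul_eq_zsmul _ _ _
    have h4 := linearIndependent_iff.1 b.linearIndependent _ h3
    exact (ZMod.intCast_zmod_eq_zero_iff_dvd _ _).1 (DFunLike.congr_fun h4 j)

theorem lift_basis {p : ℕ} (hp : p.Prime) (K L : AddSubgroup A) (h : ∀ x ∈ L, p • x ∈ K) :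
    ∃ (J : Type) (v : J → A), (∀ j, v j ∈ L) ∧ L ≤ K ⊔ AddSubgroup.closure (Set.range v) ∧
      ∀ c : J →₀ ℤ, linearCombination ℤ v c ∈ K → ∀ j, (p : ℤ) ∣ c j := by
  obtain ⟨J, b, b1, b2⟩ := @basis_mod p ⟨hp⟩ (L ⧸ K.addSubgroupOf L) _
    (QuotientAddGroup.zmodModule fun x => h x x.2)
  choose w hw using fun j => QuotientAddGroup.mk_surjective (b j)
  refine ⟨J, fun j => w j, fun j => (w j).2, fun x hx => ?_, fun c hc => b2 c ?_⟩
  · have key : ∀ y ∈ AddSubgroup.closure (Set.range b), ∃ z : L,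
        (z : A) ∈ AddSubgroup.closure (Set.range fun j => (w j : A)) ∧
          (z : L ⧸ K.addSubgroupOf L) = y := by
      intro y hy
      induction hy using AddSubgroup.closure_induction with
      | mem y hy =>
        obtain ⟨j, rfl⟩ := hy
        exact ⟨w j, AddSubgroup.subset_closure ⟨j, rfl⟩, hw j⟩
      | zero => exact ⟨0, zero_mem _, rfl⟩
      | add y y' _ _ h1 h2 =>
        obtain ⟨z, hz, rfl⟩ := h1
        obtain ⟨z', hz', rfl⟩ := h2
        exact ⟨z + z', add_mem hz hz', rfl⟩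
      | neg y _ h1 =>
        obtain ⟨z, hz, rfl⟩ := h1
        exact ⟨-z, neg_mem hz, rfl⟩
    obtain ⟨z, hz, e⟩ := key ((⟨x, hx⟩ : L) : L ⧸ K.addSubgroupOf L) (b1 _)
    have h1 : -(z : A) + x ∈ K := AddSubgroup.mem_addSubgroupOf.1 (QuotientAddGroup.eq.1 e)
    have h2 : x = (-(z : A) + x) + z := by abel
    rw [h2]
    exact AddSubgroup.add_mem_sup h1 hz
  · have h1 : ((linearCombination ℤ w c : L) : A) = linearCombination ℤ (fun j => (w j : A)) c :=
      apply_linearCombination ℤ L.subtype.toIntLinearMap w c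
    have h2 : ((linearCombination ℤ w c : L) : L ⧸ K.addSubgroupOf L) = 0 := by
      rw [QuotientAddGroup.eq_zero_iff, AddSubgroup.mem_addSubgroupOf, h1]
      exact hc
    rw [← h2, ← funext hw]
    exact (apply_linearCombination ℤ
      (QuotientAddGroup.mk' (K.addSubgroupOf L)).toIntLinearMap w c).symm

theorem div_pow {p : ℕ} {K : AddSubgroup A} {J : Type} {v : J → A}
    (hv : ∀ c : J →₀ ℤ, linearCombination ℤ v c ∈ K → ∀ j, (p : ℤ) ∣ c j) (N : ℕ)
    (hK : ∀ i < N, ∀ x : A, p ^ i • x = 0 → x ∈ K) (c : J →₀ ℤ)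
    (hc : linearCombination ℤ v c = 0) : ∀ j, (p : ℤ) ^ N ∣ c j := by
  induction N with
  | zero => simp
  | succ N ih =>
    have h1 := ih fun i hi => hK i (by omega)
    have h2 : c = (p : ℤ) ^ N • c.mapRange (fun a => a / (p : ℤ) ^ N) (by simp) := by
      ext j
      simp [Int.mul_ediv_cancel' (h1 j)]
    intro j
    rw [h2, map_smul] at hc
    have h3 := hv _ (hK N (by omega) _ (by rw [← natCast_zsmul]; exact_mod_cast hc)) j
    rw [h2, pow_succ]
    exact mul_dvd_mul_left _ h3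

theorem emb {J : Type} (v : J → A) (n : ℕ) (h1 : ∀ j, n • v j = 0)
    (h2 : ∀ c : J →₀ ℤ, linearCombination ℤ v c = 0 → ∀ j, (n : ℤ) ∣ c j) :
    ∃ f : (J →₀ ZMod n) →+ A, Function.Injective f ∧ ∀ j, v j ∈ f.range := by
  let g : J → ZMod n →+ A := fun j => ZMod.lift n ⟨zmultiplesHom A (v j), by simpa using h1 j⟩
  have hg : ∀ j (a : ℤ), g j a = a • v j := fun j a => ZMod.lift_coe n _ a
  refine ⟨liftAddHom g, (injective_iff_map_eq_zero _).2 fun y hy => ?_,
    fun j => ⟨single j 1, ?_⟩⟩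
  · have h3 := h2 (y.mapRange ZMod.cast ZMod.cast_zero) (by
      rw [← hy, linearCombination_apply, sum_mapRange_index fun i => zero_smul _ (v i),
        liftAddHom_apply]
      refine sum_congr fun i _ => ?_
      rw [← hg, ZMod.intCast_zmod_cast])
    ext j
    have h4 := (ZMod.intCast_zmod_eq_zero_iff_dvd _ _).2 (h3 j)
    rwa [mapRange_apply, ZMod.intCast_zmod_cast] at h4
  · rw [liftAddHom_apply_single]
    simpa using hg j 1

/-- the elements with a given multiple in `M` -/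
def dv (M : AddSubgroup A) (n : ℕ) : AddSubgroup A := M.comap (nsmulAddMonoidHom n)

theorem mem_dv {M : AddSubgroup A} {n : ℕ} {x : A} : x ∈ dv M n ↔ n • x ∈ M := Iff.rfl

theorem dv_le (M S : AddSubgroup A) (h : ∀ p k : ℕ, p.Prime → dv M (p ^ k) ≤ S) (n : ℕ)
    (hn : n ≠ 0) : dv M n ≤ S := by
  induction n using Nat.recOnPrimeCoprime with
  | zero => exact absurd rfl hn
  | prime_pow p k hp => exact h p k hp
  | coprime a b ha hb hab h1 h2 =>
    intro x hx
    rw [mem_dv] at hx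
    have h3 : b • x ∈ S := h1 (by omega) (by rwa [mem_dv, ← mul_smul])
    have h4 : a • x ∈ S := h2 (by omega) (by rwa [mem_dv, ← mul_smul, mul_comm])
    have h5 : x = Nat.gcdA a b • (a • x) + Nat.gcdB a b • (b • x) := by
      rw [← natCast_zsmul, ← natCast_zsmul, ← mul_smul, ← mul_smul, ← add_smul, mul_comm,
        mul_comm (Nat.gcdB a b), ← Nat.gcd_eq_gcd_ab, hab.gcd_eq_one]
      simp
    rw [h5]
    exact add_mem (zsmul_mem h4 _) (zsmul_mem h3 _)

/-- an abelian group is the sum of countably many subgroups that are free over a cyclic ring -/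
theorem sum_ind (R : AddSubgroup A → Prop) (mono : ∀ K L, K ≤ L → R L → R K)
    (sup : ∀ K : ℕ → AddSubgroup A, (∀ k, R (K k)) → R (⨆ k, K k))
    (free : ∀ (n : ℕ) (J : Type) (f : (J →₀ ZMod n) →+ A), Function.Injective f → R f.range) :
    R ⊤ := by
  have sup2 : ∀ K L, R K → R L → R (K ⊔ L) := fun K L hK hL =>
    mono _ _ (sup_le (le_iSup_of_le 0 (by simp)) (le_iSup_of_le 1 (by simp)))
      (sup (fun k => if k = 0 then K else L) fun k => by split_ifs <;> assumption)
  have fr : ∀ (J : Type) (v : J → A) (n : ℕ), (∀ j, n • v j = 0) →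
      (∀ c : J →₀ ℤ, linearCombination ℤ v c = 0 → ∀ j, (n : ℤ) ∣ c j) →
      R (AddSubgroup.closure (Set.range v)) := fun J v n h1 h2 => by
    obtain ⟨f, hf, h⟩ := emb v n h1 h2
    exact mono _ _ ((AddSubgroup.closure_le _).2 (Set.range_subset_iff.2 h)) (free n J f hf)
  have all : ∀ M : AddSubgroup A, R M → (∀ p k : ℕ, p.Prime → R (dv M (p ^ k)) →
      R (dv M (p ^ (k + 1)))) → ∃ S, R S ∧ ∀ n, n ≠ 0 → dv M n ≤ S := fun M hM h => by
    have h1 : ∀ p k : ℕ, p.Prime → R (dv M (p ^ k)) := fun p k hp => by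
      induction k with
      | zero => exact mono _ _ (fun x hx => by simpa [mem_dv] using hx) hM
      | succ k ih => exact h p k hp ih
    refine ⟨⨆ i : ℕ, ⨆ k : ℕ, dv M (Nat.nth Nat.Prime i ^ k),
      sup _ fun i => sup _ fun k => h1 _ k (Nat.prime_nth_prime i), dv_le _ _ fun p k hp => ?_⟩
    refine le_iSup_of_le (Nat.count Nat.Prime p) (le_iSup_of_le k ?_)
    rw [Nat.nth_count hp]
  have hstep : ∀ (M : AddSubgroup A) (p k : ℕ) (x : A), x ∈ dv M (p ^ (k + 1)) →
      p • x ∈ dv M (p ^ k) := fun M p k x hx => by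
    rwa [mem_dv, ← mul_smul, ← pow_succ]
  obtain ⟨s, hs, hs'⟩ := exists_maximal_linearIndepOn ℤ (id : A → A)
  have hF : R (AddSubgroup.closure (Set.range fun j : s => (j : A))) :=
    fr s _ 0 (fun _ => zero_smul _ _) fun c hc j => by
      rw [linearIndependent_iff.1 hs c hc]
      simp
  obtain ⟨T, hT, hT'⟩ := all ⊥ (mono _ _ bot_le hF) fun p k hp ih => by
    obtain ⟨J, v, h1, h2, h3⟩ := lift_basis hp _ _ (hstep ⊥ p k)
    refine mono _ _ h2 (sup2 _ _ ih (fr J v (p ^ (k + 1)) h1 fun c hc j => ?_))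
    push_cast
    refine div_pow h3 _ (fun i hi x hx => ?_) c hc j
    obtain ⟨d, rfl⟩ := Nat.exists_eq_add_of_le' (Nat.lt_succ_iff.1 hi)
    rw [mem_dv, pow_add, mul_smul, hx, smul_zero]
    exact zero_mem _
  obtain ⟨S, hS, hS'⟩ := all _ (sup2 _ _ hF hT) fun p k hp ih => by
    obtain ⟨J, v, -, h2, h3⟩ := lift_basis hp _ _ (hstep _ p k)
    refine mono _ _ h2 (sup2 _ _ ih (fr J v 0 (fun _ => zero_smul _ _) fun c hc j => ?_))
    have h4 : ∀ N : ℕ, (p : ℤ) ^ N ∣ c j := fun N =>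
      div_pow h3 N (fun i _ x hx => nsmul_mem (AddSubgroup.mem_sup_right
        (hT' _ (pow_ne_zero i hp.ne_zero) hx)) _) c hc j
    rw [Int.eq_zero_of_dvd_of_natAbs_lt_natAbs (h4 (c j).natAbs) (by
      rw [Int.natAbs_pow, Int.natAbs_natCast]
      exact Nat.lt_pow_self hp.one_lt)]
    simp
  refine mono _ _ (fun x _ => ?_) hS
  have hsp : ∀ y ∈ Submodule.span ℤ (id '' s),
      y ∈ AddSubgroup.closure (Set.range fun j : s => (j : A)) := fun y hy => by
    rw [Subtype.range_coe, ← Submodule.span_int_eq_addSubgroupClosure]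
    simpa using hy
  by_cases hx : x ∈ s
  · exact hS' 1 one_ne_zero (nsmul_mem (AddSubgroup.mem_sup_left
      (AddSubgroup.subset_closure (Set.mem_range_self (⟨x, hx⟩ : s)))) 1)
  · obtain ⟨a, ha, h⟩ := hs' x hx
    refine hS' a.natAbs (Int.natAbs_ne_zero.2 ha) (AddSubgroup.mem_sup_left ?_)
    change a.natAbs • x ∈ _
    rw [← natCast_zsmul]
    rcases Int.natAbs_eq a with e | e
    · rw [← e]
      exact hsp _ h
    · rw [← neg_mem_iff, ← neg_smul, ← e]
      exact hsp _ h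

end sum

theorem rigOn_abelian {κ : Cardinal.{0}} (hκ : ℵ₀ ≤ κ) {G A : Type} [Group G] [AddCommGroup A]
    (f : Multiplicative A →* G) (hf : Function.Injective f) : RigOn κ (Set.range f) := by
  have h := sum_ind (fun K : AddSubgroup A => RigOn κ ((AddSubgroup.toSubgroup K).map f : Set G))
    (fun K L hKL h => h.mono (Set.image_mono hKL)) (fun K hK => ?_) fun n J g hg => ?_
  · refine h.mono ?_
    rintro _ ⟨x, rfl⟩
    exact ⟨x, trivial, rfl⟩
  · refine (RigOn.iUnion hκ (mk_le_aleph0.trans hκ) hK).closure.mono ?_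
    rw [map_iSup, Subgroup.map_iSup, Subgroup.iSup_eq_closure]
  · refine ((arig_free J).rigOn hκ (f.comp (AddMonoidHom.toMultiplicative g))
      (hf.comp hg)).mono ?_
    rintro _ ⟨_, ⟨y, rfl⟩, rfl⟩
    exact ⟨Multiplicative.ofAdd y, rfl⟩

theorem rep_abelian_gen {κ : Cardinal.{0}} (hκ : ℵ₀ ≤ κ) {G : Type} [Group G]
    (𝒜 : Set (Subgroup G)) (h1 : #𝒜 ≤ κ) (h2 : ∀ B ∈ 𝒜, ∀ x ∈ B, ∀ y ∈ B, x * y = y * x)
    (h3 : sSup 𝒜 = ⊤) : Rep G κ := by
  have h4 : ∀ B : 𝒜, RigOn κ (B.1 : Set G) := fun B => by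
    let _ : CommGroup B.1 :=
      { (inferInstance : Group B.1) with
        mul_comm := fun x y => Subtype.ext (h2 B.1 B.2 x x.2 y y.2) }
    refine (rigOn_abelian hκ (A := Additive B.1) B.1.subtype Subtype.val_injective).mono ?_
    exact fun x hx => ⟨⟨x, hx⟩, rfl⟩
  refine RigOn.rep hκ ((RigOn.iUnion hκ h1 h4).closure.mono ?_)
  rw [← Subgroup.iSup_eq_closure, ← sSup_eq_iSup', h3]
  rfl

end Pool.Agent.MP_0f290c_co
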